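import Pool.Agent.TH115.GD.Defs

/-!
The 2-primary part of the Tate-Shafarevich group over `k(t)`.
-/

set_option autoImplicit false
set_option linter.all false

open Polynomial IsDedekindDomain WeierstrassCurve WeierstrassCurve.Affine
open scoped Classical

namespace Pool.Agent.TH115.GD

/-- The 2-primary part of the Tate-Shafarevich group of `W` over `K = k(t)` is zero: a continuous
cocycle of `Gal(Sep K / K)` with values in `W(Sep K)` whose class is killed by a power of two and
which is a coboundary over the completions of `K` at all places (the closed points of the projective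
line over `k`) is a coboundary. -/
def ShaTwo (k : Type) {K : Type} [Field k] [Field K] [Algebra k[X] K] [IsFractionRing k[X] K]
    (W : WeierstrassCurve K) : Prop :=
  ∀ f : (Sep K ≃ₐ[K] Sep K) → Pt W (Sep K), IsCoc W f → LocallyTrivial k W f →
    (∃ (n : ℕ) (R : Pt W (Sep K)), ∀ σ, 2 ^ n • f σ = act W (rs K σ) R - R) →
    ∃ R : Pt W (Sep K), ∀ σ, f σ = act W (rs K σ) R - R

end Pool.Agent.TH115.GD
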