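import Pool.Agent.TH115.SK.LTg
import Pool.Agent.TH115.SK.Defs

/-!
The Tate-Shafarevich group over `k(t)`.
-/

set_option autoImplicit false
set_option linter.all false

open Polynomial IsDedekindDomain WeierstrassCurve WeierstrassCurve.Affine
open scoped Classical

namespace Pool.Agent.TH115.GD

section sha

variable {k K : Type} [Field k] [Field K] [Algebra k[X] K] [IsFractionRing k[X] K] {α β : K}
  (h2 : (2 : K) ≠ 0) (hα : α ≠ 0) (hβ : β ≠ 0) (hαβ : α ≠ β)

include h2 hα hβ hαβ in
theorem sha_of_points (h : ∀ a0 a1 : K, a0 ≠ 0 → a1 ≠ 0 → LSg (F := K) k (crv α β) α β a0 a1 →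
    ∃ P : Pt (crv α β) K, SqEq a0 (d0 α β P) ∧ SqEq a1 (d1 α β P)) : ShaTwo k (crv α β) := by
  have hL := isE α β (Sep K) h2 hα hβ hαβ
  -- the 2-torsion
  have key : ∀ g : (Sep K ≃ₐ[K] Sep K) → Pt (crv α β) (Sep K), IsCoc (crv α β) g →
      LocallyTrivial k (crv α β) g →
      (∃ R : Pt (crv α β) (Sep K), ∀ σ, 2 • g σ = act (crv α β) (rs K σ) R - R) →
      ∃ R : Pt (crv α β) (Sep K), ∀ σ, g σ = act (crv α β) (rs K σ) R - R := by
    rintro g hg hl ⟨R, hR⟩
    obtain ⟨S, hS⟩ := halve_sep hL R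
    set g' : (Sep K ≃ₐ[K] Sep K) → Pt (crv α β) (Sep K) :=
      fun σ => g σ - (act (crv α β) (rs K σ) S - S) with hg'
    have hc' : IsCoc (crv α β) g' := hg.sub _ (cob_isCoc _ _)
    have hl' : LocallyTrivial k (crv α β) g' :=
      lt_sub hl S
    have h22 : ∀ σ, g' σ + g' σ = 0 := by
      intro σ
      show g σ - (act (crv α β) (rs K σ) S - S) + (g σ - (act (crv α β) (rs K σ) S - S)) = 0
      have e : g σ - (act (crv α β) (rs K σ) S - S) + (g σ - (act (crv α β) (rs K σ) S - S)) =
          2 • g σ - ((act (crv α β) (rs K σ) S + act (crv α β) (rs K σ) S) - (S + S)) := by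
        rw [two_nsmul]
        abel
      rw [e, hR, ← map_add, hS, sub_self]
    obtain ⟨t0, t1, a0, a1, n0, n1, e0, e1, k0, k1⟩ := kummer_rep _ hL hc' h22
    have ha0 : a0 ≠ 0 := by
      rintro rfl
      rw [map_zero] at e0
      exact pow_ne_zero 2 n0 e0
    have ha1 : a1 ≠ 0 := by
      rintro rfl
      rw [map_zero] at e1
      exact pow_ne_zero 2 n1 e1
    have hE : ∀ (L : Type) [Field L] [Algebra K L],
        IsE ((crv α β).baseChange L).toAffine (algebraMap K L α) (algebraMap K L β) :=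
      fun L _ _ => isE _ _ L h2 hα hβ hαβ
    have hls : LSg (F := K) k (crv α β) α β a0 a1 :=
      lt_rep hE hl' h22 n0 n1 e0 e1 k0 k1
    obtain ⟨P, ⟨c0, m0, w0⟩, ⟨c1, m1, w1⟩⟩ := h a0 a1 ha0 ha1 hls
    obtain ⟨H, hH⟩ := halve_sep hL (act (crv α β) (incl K K (Sep K)) P)
    have PK : ∀ φ : Sep K →ₐ[K] Sep K, act (crv α β) φ (act (crv α β) (incl K K (Sep K)) P) =
        act (crv α β) (incl K K (Sep K)) P := by
      intro φ
      have h1 : φ.comp (incl K K (Sep K)) = incl K K (Sep K) := AlgHom.ext fun x => φ.commutes x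
      rw [act_act, h1]
    have key := cob_of_rep (F := K) (crv α β) hL h22 n0 n1 k0 k1 (H := H) (c0 := c0) (c1 := c1)
      (fun σ => by rw [hH]; exact PK _)
      (by
        rw [hH, e0, w0, map_mul, map_pow]
        congr 1
        have := d0_act (crv α β) (incl K K (Sep K)) α β P
        have ea : incl K K (Sep K) α = algebraMap K (Sep K) α := rfl
        have eb : incl K K (Sep K) β = algebraMap K (Sep K) β := rfl
        rw [ea, eb] at this
        rw [this]
        rfl)
      (by
        rw [hH, e1, w1, map_mul, map_pow]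
        congr 1
        have := d1_act (crv α β) (incl K K (Sep K)) α β P
        have ea : incl K K (Sep K) α = algebraMap K (Sep K) α := rfl
        have eb : incl K K (Sep K) β = algebraMap K (Sep K) β := rfl
        rw [ea, eb] at this
        rw [this]
        rfl)
    refine ⟨H + S, fun σ => ?_⟩
    have h5 : g σ = g' σ + (act (crv α β) (rs K σ) S - S) := by
      show g σ = g σ - (act (crv α β) (rs K σ) S - S) + (act (crv α β) (rs K σ) S - S)
      abel
    rw [h5, key σ, map_add]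
    abel
  intro f hf hl ⟨n, hn⟩
  induction n with
  | zero =>
    obtain ⟨R, hR⟩ := hn
    exact ⟨R, fun σ => by rw [← hR, pow_zero, one_smul]⟩
  | succ n ih =>
    apply ih
    refine key (fun σ => 2 ^ n • f σ) ?_ ?_ ?_
    · have := hf.smul (crv α β) (2 ^ n : ℤ)
      have e : (fun σ => (2 ^ n : ℤ) • f σ) = fun σ => 2 ^ n • f σ := by
        funext σ
        rw [← natCast_zsmul]
        push_cast
        rfl
      rwa [e] at this
    · have e : (fun σ => (2 ^ n : ℤ) • f σ) = fun σ => 2 ^ n • f σ := by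
        funext σ
        rw [← natCast_zsmul]
        push_cast
        rfl
      show LocallyTrivial k (crv α β) (fun σ => 2 ^ n • f σ)
      rw [← e]
      exact lt_smul hl _
    · obtain ⟨R, hR⟩ := hn
      refine ⟨R, fun σ => ?_⟩
      rw [← hR, pow_succ', mul_smul]

end sha

section core

variable {k K : Type} [Field k] [Field K] [Algebra k[X] K] [IsFractionRing k[X] K]
  (h2 : (2 : k) ≠ 0) {a b : k[X]} (ha : a ≠ 0) (hb : b ≠ 0) (hab : a ≠ b) (hco : IsCoprime a b)
  (hodd : Odd (max a.natDegree b.natDegree) ∨ TwoOddFactors a b)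

/-- If a constant is equal to a constant times a monic squarefree polynomial modulo squares, then the
polynomial is one. -/
theorem one_of_const {S : k[X]} (hS : S.Monic) (hS' : Squarefree S) {u r : k} (hu : u ≠ 0)
    (hr : r ≠ 0) (h : SqEq (algebraMap k[X] K (C u)) (algebraMap k[X] K (C r * S))) : S = 1 := by
  have hun : IsUnit S := by
    by_contra hn
    obtain ⟨π, hπ, hd⟩ := WfDvdMonoid.exists_irreducible_factor hn hS'.ne_zero
    obtain ⟨c, hc, e⟩ := h
    have h1 := (sq_iff_dec (plK hπ) hS' hr hc e).1 (by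
      rw [(valK_one (plK hπ)).2 (not_mem_C (plK hπ) hu)]
      exact sq_one)
    exact h1 ((mem_plK hπ).2 hd)
  exact hS.eq_one_of_isUnit hun

include h2 ha hb hab hco hodd in
/-- Locally soluble pairs of constants are trivial. -/
theorem const_pair {u0 u1 : k} (n0 : u0 ≠ 0) (n1 : u1 ≠ 0) {a0 a1 : K} (ha0 : a0 ≠ 0)
    (ha1 : a1 ≠ 0) (hls : LSg (F := K) k
    (crv (algebraMap k[X] K a) (algebraMap k[X] K b)) (algebraMap k[X] K a) (algebraMap k[X] K b)
    a0 a1) (q0 : SqEq a0 (algebraMap k[X] K (C u0))) (q1 : SqEq a1 (algebraMap k[X] K (C u1))) :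
    SqEq a0 1 ∧ SqEq a1 1 := by
  obtain ⟨A, B, D, r, s, ⟨mA, mB, mD, sA, sB, sD, dA, dB, dD, -⟩, hc, e0, e1⟩ :=
    selK h2 ha hb hab hco ha0 ha1 hls
  obtain ⟨r0, s0', onA, onB, onC, inf⟩ := hc
  have hcoac : IsCoprime a (a - b) := by
    obtain ⟨x, y, h⟩ := hco
    exact ⟨x + y, -y, by linear_combination h⟩
  have hAB : IsCoprime A B := (hco.of_isCoprime_of_dvd_left dA).of_isCoprime_of_dvd_right dB
  have hAD : IsCoprime A D := (hcoac.of_isCoprime_of_dvd_left dA).of_isCoprime_of_dvd_right dD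
  have h3 : A * B = 1 := one_of_const (K := K) (mA.mul mB)
    (squarefree_mul_iff.2 ⟨hAB.isRelPrime, sA, sB⟩) n0 r0 (q0.symm.trans e0)
  have h4 : A * D = 1 := one_of_const (K := K) (mA.mul mD)
    (squarefree_mul_iff.2 ⟨hAD.isRelPrime, sA, sD⟩) n1 s0' (q1.symm.trans e1)
  have hA : A = 1 := mA.eq_one_of_isUnit (IsUnit.of_mul_eq_one _ h3)
  subst hA
  rw [one_mul] at h3 h4
  subst h3
  subst h4
  -- the constants are squares
  have n1' : ∀ {π : k[X]}, Irreducible π → ¬ π ∣ 1 := fun hπ h =>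
    hπ.not_isUnit (isUnit_of_dvd_one h)
  have sqC : ∀ {u : k}, u ≠ 0 → IsSquare u → SqEq (algebraMap k[X] K (C u)) 1 := by
    rintro u hu ⟨x, rfl⟩
    have hx : x ≠ 0 := by rintro rfl; exact hu (mul_zero 0)
    refine ⟨algebraMap k[X] K (C x), ?_, ?_⟩
    · have : C x ≠ 0 := C_ne_zero.2 hx
      simpa using this
    · rw [mul_one, ← map_pow, pow_two, C_mul]
  have rs : IsSquare r ∧ IsSquare s := by
    rcases hodd with hN | ho
    · obtain ⟨p, q, hpq, ep, eq, sp, sq⟩ := inf hN
      rw [mul_one, mul_one] at ep eq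
      have z : ∀ {p : k[X]}, Even p.natDegree → (p.natDegree : ZMod 2) = (1 : k[X]).natDegree := by
        intro p hp
        rw [natDegree_one, Nat.cast_zero]
        exact (ZMod.natCast_eq_zero_iff_even).2 hp
      obtain ⟨rfl, rfl⟩ := torPair_unique ha hb hab hN hpq (Or.inl ⟨rfl, rfl⟩) (z ep) (z eq)
      rw [leadingCoeff_one, mul_one] at sp sq
      exact ⟨sp, sq⟩
    · have F : ∀ {p : k[X]}, HasOddFactor p → ∃ π, OddFactor π p ∧ Odd π.natDegree := by
        rintro p ⟨π, m, h1, h3, h4, h5⟩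
        exact ⟨π, ⟨h1, m, h4, h5⟩, h3⟩
      have SA : HasOddFactor a → IsSquare (r * s) := by
        intro h
        obtain ⟨π, h1, h3⟩ := F h
        have h4 := (onA π h1).1 (n1' h1.1)
        rw [mul_one, mul_one] at h4
        exact const_sq h1.1 h3 h4
      have SB : HasOddFactor b → IsSquare s := by
        intro h
        obtain ⟨π, h1, h3⟩ := F h
        have h4 := (onB π h1).1 (n1' h1.1)
        rw [mul_one, mul_one] at h4
        exact const_sq h1.1 h3 h4
      have SC : HasOddFactor (a - b) → IsSquare r := by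
        intro h
        obtain ⟨π, h1, h3⟩ := F h
        have h4 := (onC π h1).1 (n1' h1.1)
        rw [mul_one, mul_one] at h4
        exact const_sq h1.1 h3 h4
      have q : ∀ {x y : k}, x ≠ 0 → IsSquare (x * y) → IsSquare x → IsSquare y := by
        rintro x y hx ⟨z, hz⟩ ⟨w, rfl⟩
        have hw : w ≠ 0 := by rintro rfl; exact hx (mul_zero 0)
        refine ⟨z / w, ?_⟩
        field_simp
        linear_combination hz
      rcases ho with ⟨h1, h3⟩ | ⟨h1, h3⟩ | ⟨h1, h3⟩
      · have s1 := SB h3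
        exact ⟨q s0' (by rw [mul_comm]; exact SA h1) s1, s1⟩
      · have r1 := SC h3
        exact ⟨r1, q r0 (SA h1) r1⟩
      · exact ⟨SC h3, SB h1⟩
  rw [mul_one, mul_one] at e0 e1
  exact ⟨e0.trans (sqC r0 rs.1), e1.trans (sqC s0' rs.2)⟩

end core

end Pool.Agent.TH115.GD
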