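import Pool.Agent.TH115.SK.ShaK

/-!
Counting the locally soluble pairs over `K = k(t)`.
-/

set_option autoImplicit false
set_option linter.all false

open Polynomial IsDedekindDomain WeierstrassCurve WeierstrassCurve.Affine
open scoped Classical

namespace Pool.Agent.TH115.GD

section gen

variable {k' K F : Type} [Field k'] [Field K] [Field F] [Algebra K F] [Algebra k'[X] F]
  [IsFractionRing k'[X] F] {α β : K} (h2 : (2 : K) ≠ 0) (hα : α ≠ 0) (hβ : β ≠ 0) (hαβ : α ≠ β)

include h2 hα hβ hαβ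

theorem lsg_mul {a0 a1 b0 b1 : F} (h : LSg k' (crv α β) α β a0 a1)
    (h' : LSg k' (crv α β) α β b0 b1) : LSg k' (crv α β) α β (a0 * b0) (a1 * b1) :=
  ⟨fun v => (h.1 v).mul h2 hα hβ hαβ (h'.1 v), h.2.mul h2 hα hβ hαβ h'.2⟩

theorem lsg_pt (P : Pt (crv α β) K) :
    LSg k' (crv α β) α β (algebraMap K F (d0 α β P)) (algebraMap K F (d1 α β P)) :=
  ⟨fun v => locSol_pt h2 hα hβ hαβ P, locSol_pt h2 hα hβ hαβ P⟩

end gen

section core

variable {k K : Type} [Field k] [Field K] [Algebra k[X] K] [IsFractionRing k[X] K]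
  (h2 : (2 : k) ≠ 0) {a b : k[X]} (ha : a ≠ 0) (hb : b ≠ 0) (hab : a ≠ b) (hco : IsCoprime a b)
  (hodd : Odd (max a.natDegree b.natDegree) ∨ TwoOddFactors a b)

include h2 ha hb hab in
theorem lsg_ptK (P : Pt (crv (algebraMap k[X] K a) (algebraMap k[X] K b)) K) :
    LSg (F := K) k (crv (algebraMap k[X] K a) (algebraMap k[X] K b)) (algebraMap k[X] K a)
      (algebraMap k[X] K b) (d0 (algebraMap k[X] K a) (algebraMap k[X] K b) P)
      (d1 (algebraMap k[X] K a) (algebraMap k[X] K b) P) := by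
  have h2K : (2 : K) ≠ 0 := tt h2
  have inj := IsFractionRing.injective k[X] K
  have haK : algebraMap k[X] K a ≠ 0 := by simpa using ha
  have hbK : algebraMap k[X] K b ≠ 0 := by simpa using hb
  have habK : algebraMap k[X] K a ≠ algebraMap k[X] K b := fun h => hab (inj h)
  exact lsg_pt (F := K) (k' := k) h2K haK hbK habK P

include h2 ha hb hab hodd in
/-- A point of order two with trivial coordinates is zero. -/
theorem tor_zero {T : Pt (crv (algebraMap k[X] K a) (algebraMap k[X] K b)) K} (hTT : T + T = 0)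
    (q0 : SqEq (d0 (algebraMap k[X] K a) (algebraMap k[X] K b) T) 1)
    (q1 : SqEq (d1 (algebraMap k[X] K a) (algebraMap k[X] K b) T) 1) : T = 0 := by
  have h2K : (2 : K) ≠ 0 := tt h2
  have inj := IsFractionRing.injective k[X] K
  have haK : algebraMap k[X] K a ≠ 0 := by simpa using ha
  have hbK : algebraMap k[X] K b ≠ 0 := by simpa using hb
  have habK : algebraMap k[X] K a ≠ algebraMap k[X] K b := fun h => hab (inj h)
  have hsub : a - b ≠ 0 := sub_ne_zero.2 hab
  have hE := isE (algebraMap k[X] K a) (algebraMap k[X] K b) K h2K haK hbK habK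
  have sqv : ∀ (w : Valuation K (WithZero (Multiplicative ℤ))) {x : K}, SqEq x 1 →
      IsSquare (w x) := by
    rintro w x ⟨c, hc, rfl⟩
    rw [mul_one, map_pow, pow_two]
    exact ⟨_, rfl⟩
  have neg : ∀ (w : Valuation K (WithZero (Multiplicative ℤ))) (x y : K),
      w (x - y) = w (y - x) := fun w x y => by rw [← Valuation.map_neg, neg_sub]
  have uni : T ≠ 0 → (∀ w : Valuation K (WithZero (Multiplicative ℤ)),
        IsSquare (w (algebraMap k[X] K a)) ∧ IsSquare (w (algebraMap k[X] K b))) ∨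
      (∀ w : Valuation K (WithZero (Multiplicative ℤ)),
        IsSquare (w (algebraMap k[X] K a)) ∧ IsSquare (w (algebraMap k[X] K (a - b)))) ∨
      (∀ w : Valuation K (WithZero (Multiplicative ℤ)),
        IsSquare (w (algebraMap k[X] K b)) ∧ IsSquare (w (algebraMap k[X] K (a - b)))) := by
    intro hT
    rcases tor_d hE hTT with h | ⟨h, h'⟩ | ⟨h, h'⟩ | ⟨h, h'⟩
    · exact absurd h hT
    · left
      intro w
      have e0 := sqv w q0
      have e1 := sqv w q1
      have f0 : d0 (algebraMap k[X] K a) (algebraMap k[X] K b) T =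
        algebraMap k[X] K a * algebraMap k[X] K b := h
      have f1 : d1 (algebraMap k[X] K a) (algebraMap k[X] K b) T = - algebraMap k[X] K a := h'
      rw [f1, Valuation.map_neg] at e1
      rw [f0, map_mul] at e0
      exact ⟨e1, Pool.Agent.W309.TD.IsSquare.of_mul_left' e1
        ((Valuation.ne_zero_iff _).2 haK) e0⟩
    · right; left
      intro w
      have e0 := sqv w q0
      have e1 := sqv w q1
      have f0 : d0 (algebraMap k[X] K a) (algebraMap k[X] K b) T = algebraMap k[X] K a := h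
      have f1 : d1 (algebraMap k[X] K a) (algebraMap k[X] K b) T = algebraMap k[X] K a *
        (algebraMap k[X] K a - algebraMap k[X] K b) := h'
      rw [f1, map_mul, ← map_sub] at e1
      rw [f0] at e0
      exact ⟨e0, Pool.Agent.W309.TD.IsSquare.of_mul_left' e0
        ((Valuation.ne_zero_iff _).2 haK) e1⟩
    · right; right
      intro w
      have e0 := sqv w q0
      have e1 := sqv w q1
      have f0 : d0 (algebraMap k[X] K a) (algebraMap k[X] K b) T = algebraMap k[X] K b := h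
      have f1 : d1 (algebraMap k[X] K a) (algebraMap k[X] K b) T =
        algebraMap k[X] K b - algebraMap k[X] K a := h'
      rw [f1, neg, ← map_sub] at e1
      rw [f0] at e0
      exact ⟨e0, e1⟩
  by_contra hT
  have hu := uni hT
  have two : ∃ Pa Pb Pc : Prop, ((Pa ∧ Pb) ∨ (Pa ∧ Pc) ∨ (Pb ∧ Pc)) ∧
      (Pa → ∃ w : Valuation K (WithZero (Multiplicative ℤ)),
        ¬ IsSquare (w (algebraMap k[X] K a))) ∧
      (Pb → ∃ w : Valuation K (WithZero (Multiplicative ℤ)),
        ¬ IsSquare (w (algebraMap k[X] K b))) ∧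
      (Pc → ∃ w : Valuation K (WithZero (Multiplicative ℤ)),
        ¬ IsSquare (w (algebraMap k[X] K (a - b)))) := by
    rcases hodd with hN | ho
    · have key : ∀ {p : k[X]}, p ≠ 0 → (p.natDegree : ZMod 2) = 1 →
          ∃ w : Valuation K (WithZero (Multiplicative ℤ)), ¬ IsSquare (w (algebraMap k[X] K p)) := by
        intro p hp h
        refine ⟨vInf k K, ?_⟩
        rw [vInf_poly hp, isSquare_exp]
        rw [ZMod.natCast_eq_one_iff_odd] at h
        have : ¬ Even p.natDegree := Nat.not_even_iff_odd.2 h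
        exact_mod_cast this
      exact ⟨_, _, _, odd_degs hN, key ha, key hb, key hsub⟩
    · have key : ∀ {p : k[X]}, HasOddFactor p →
          ∃ w : Valuation K (WithZero (Multiplicative ℤ)), ¬ IsSquare (w (algebraMap k[X] K p)) := by
        rintro p ⟨π, m, h1, h3, h4, h5⟩
        exact ⟨(plK h1).valuation K, not_sq_odd (plK h1) (fun p => mem_plK h1) ⟨h1, m, h4, h5⟩⟩
      exact ⟨_, _, _, ho, key, key, key⟩
  obtain ⟨Pa, Pb, Pc, h, ka, kb, kc⟩ := two
  rcases hu with hu | hu | hu <;> rcases h with ⟨h, h'⟩ | ⟨h, h'⟩ | ⟨h, h'⟩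
  · obtain ⟨w, hw⟩ := ka h; exact hw (hu w).1
  · obtain ⟨w, hw⟩ := ka h; exact hw (hu w).1
  · obtain ⟨w, hw⟩ := kb h; exact hw (hu w).2
  · obtain ⟨w, hw⟩ := ka h; exact hw (hu w).1
  · obtain ⟨w, hw⟩ := ka h; exact hw (hu w).1
  · obtain ⟨w, hw⟩ := kc h'; exact hw (hu w).2
  · obtain ⟨w, hw⟩ := kb h'; exact hw (hu w).1
  · obtain ⟨w, hw⟩ := kc h'; exact hw (hu w).2
  · obtain ⟨w, hw⟩ := kb h; exact hw (hu w).1

include h2 ha hb hab in
theorem dK_add (P Q : Pt (crv (algebraMap k[X] K a) (algebraMap k[X] K b)) K) :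
    SqEq (d0 (algebraMap k[X] K a) (algebraMap k[X] K b) (P + Q))
      (d0 (algebraMap k[X] K a) (algebraMap k[X] K b) P *
        d0 (algebraMap k[X] K a) (algebraMap k[X] K b) Q) ∧
    SqEq (d1 (algebraMap k[X] K a) (algebraMap k[X] K b) (P + Q))
      (d1 (algebraMap k[X] K a) (algebraMap k[X] K b) P *
        d1 (algebraMap k[X] K a) (algebraMap k[X] K b) Q) := by
  have h2K : (2 : K) ≠ 0 := tt h2
  have inj := IsFractionRing.injective k[X] K
  have haK : algebraMap k[X] K a ≠ 0 := by simpa using ha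
  have hbK : algebraMap k[X] K b ≠ 0 := by simpa using hb
  have habK : algebraMap k[X] K a ≠ algebraMap k[X] K b := fun h => hab (inj h)
  obtain ⟨u0, u1, n0, n1, e0, e1⟩ := d_add (K := K) (F := K) (Ω := Sep K)
    (crv (algebraMap k[X] K a) (algebraMap k[X] K b)) (isE _ _ (Sep K) h2K haK hbK habK) P Q
  exact ⟨⟨u0, n0, e0⟩, ⟨u1, n1, e1⟩⟩

include h2 ha hb hab hco hodd in
/-- If there are as many independent points as the number of triples allows, then all locally soluble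
pairs come from points. -/
theorem pt_of_lsg {d : ℕ} (hd : (Triples2 a b).encard ≤ 2 ^ (d + 2))
    (P : Fin d → Pt (crv (algebraMap k[X] K a) (algebraMap k[X] K b)) K)
    (hP : ∀ S : Finset (Fin d), S.Nonempty →
      ∀ T Q : Pt (crv (algebraMap k[X] K a) (algebraMap k[X] K b)) K, T + T = 0 →
        ∑ i ∈ S, P i ≠ T + (Q + Q)) (a0 a1 : K) (n0 : a0 ≠ 0) (n1 : a1 ≠ 0)
    (hls : LSg (F := K) k (crv (algebraMap k[X] K a) (algebraMap k[X] K b)) (algebraMap k[X] K a)
      (algebraMap k[X] K b) a0 a1) :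
    ∃ P : Pt (crv (algebraMap k[X] K a) (algebraMap k[X] K b)) K,
      SqEq a0 (d0 (algebraMap k[X] K a) (algebraMap k[X] K b) P) ∧
      SqEq a1 (d1 (algebraMap k[X] K a) (algebraMap k[X] K b) P) := by
  have h2K : (2 : K) ≠ 0 := tt h2
  have inj := IsFractionRing.injective k[X] K
  have haK : algebraMap k[X] K a ≠ 0 := by simpa using ha
  have hbK : algebraMap k[X] K b ≠ 0 := by simpa using hb
  have habK : algebraMap k[X] K a ≠ algebraMap k[X] K b := fun h => hab (inj h)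
  have hEK := isE (algebraMap k[X] K a) (algebraMap k[X] K b) K h2K haK hbK habK
  obtain ⟨T, hTinj, hT2⟩ := four_pts h2K haK hbK habK
  -- products of two pairs with the same triple
  have pr : ∀ {x y : K} {r r' : k} {S : k[X]}, r ≠ 0 → r' ≠ 0 → S ≠ 0 →
      SqEq x (algebraMap k[X] K (C r * S)) → SqEq y (algebraMap k[X] K (C r' * S)) →
      SqEq (x * y) (algebraMap k[X] K (C (r * r'))) := by
    rintro x y r r' S hr hr' hS ⟨c, hc, rfl⟩ ⟨c', hc', rfl⟩
    have hSK : algebraMap k[X] K S ≠ 0 := by simpa using hS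
    refine ⟨c * c' * algebraMap k[X] K S, mul_ne_zero (mul_ne_zero hc hc') hSK, ?_⟩
    rw [C_mul, map_mul, map_mul, map_mul]
    ring
  have un : ∀ {x y : K}, y ≠ 0 → SqEq (x * y) 1 → SqEq x y := by
    rintro x y hy ⟨c, hc, e⟩
    refine ⟨c / y, div_ne_zero hc hy, ?_⟩
    field_simp
    linear_combination e
  -- the product of two locally soluble pairs with the same triple
  have same : ∀ {x0 x1 y0 y1 : K}, x0 ≠ 0 → x1 ≠ 0 → y0 ≠ 0 → y1 ≠ 0 →
      LSg (F := K) k (crv (algebraMap k[X] K a) (algebraMap k[X] K b)) (algebraMap k[X] K a)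
        (algebraMap k[X] K b) x0 x1 →
      LSg (F := K) k (crv (algebraMap k[X] K a) (algebraMap k[X] K b)) (algebraMap k[X] K a)
        (algebraMap k[X] K b) y0 y1 →
      ∀ {r s r' s' : k} {t : k[X] × k[X] × k[X]}, t ∈ Triples2 a b → r ≠ 0 → s ≠ 0 → r' ≠ 0 →
      s' ≠ 0 → SqEq x0 (algebraMap k[X] K (C r * (t.1 * t.2.1))) →
      SqEq x1 (algebraMap k[X] K (C s * (t.1 * t.2.2))) →
      SqEq y0 (algebraMap k[X] K (C r' * (t.1 * t.2.1))) →
      SqEq y1 (algebraMap k[X] K (C s' * (t.1 * t.2.2))) →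
      SqEq (x0 * y0) 1 ∧ SqEq (x1 * y1) 1 := by
    intro x0 x1 y0 y1 hx0 hx1 hy0 hy1 hx hy r s r' s' t ht hr hs hr' hs' e0 e1 f0 f1
    have hm := ht.1
    have hA : t.1 ≠ 0 := hm.1.ne_zero
    have hB : t.2.1 ≠ 0 := hm.2.1.ne_zero
    have hD : t.2.2 ≠ 0 := hm.2.2.1.ne_zero
    exact const_pair h2 ha hb hab hco hodd (mul_ne_zero hr hr') (mul_ne_zero hs hs')
      (mul_ne_zero hx0 hy0) (mul_ne_zero hx1 hy1)
      (lsg_mul (F := K) (k' := k) h2K haK hbK habK hx hy)
      (pr hr hr' (mul_ne_zero hA hB) e0 f0) (pr hs hs' (mul_ne_zero hA hD) e1 f1)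
  -- the triple of a locally soluble pair
  have trip : ∀ {x0 x1 : K}, x0 ≠ 0 → x1 ≠ 0 →
      LSg (F := K) k (crv (algebraMap k[X] K a) (algebraMap k[X] K b)) (algebraMap k[X] K a)
        (algebraMap k[X] K b) x0 x1 → ∃ t ∈ Triples2 a b, ∃ r s : k, r ≠ 0 ∧ s ≠ 0 ∧
      SqEq x0 (algebraMap k[X] K (C r * (t.1 * t.2.1))) ∧
      SqEq x1 (algebraMap k[X] K (C s * (t.1 * t.2.2))) := by
    intro x0 x1 hx0 hx1 hx
    obtain ⟨A, B, D, r, s, ht, hc, e0, e1⟩ := selK h2 ha hb hab hco hx0 hx1 hx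
    exact ⟨(A, B, D), ⟨ht, r, s, hc⟩, r, s, hc.r_ne, hc.s_ne, e0, e1⟩
  have tri := fun x : Finset (Fin d) × Fin 4 =>
    trip (d0_ne hEK (∑ i ∈ x.1, P i + T x.2)) (d1_ne hEK (∑ i ∈ x.1, P i + T x.2))
      (lsg_ptK h2 ha hb hab (∑ i ∈ x.1, P i + T x.2))
  choose Ψ hΨ1 ρ σ hρ hσ hΨ2 hΨ3 using tri
  have hΨinj : Function.Injective Ψ := by
    rintro ⟨S, i⟩ ⟨S', i'⟩ h
    have e2 := hΨ2 (S', i')
    have e3 := hΨ3 (S', i')
    rw [← h] at e2 e3
    obtain ⟨r0, r1⟩ := same (d0_ne hEK _) (d1_ne hEK _) (d0_ne hEK _) (d1_ne hEK _)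
      (lsg_ptK h2 ha hb hab _) (lsg_ptK h2 ha hb hab _) (hΨ1 (S, i)) (hρ (S, i)) (hσ (S, i))
      (hρ (S', i')) (hσ (S', i')) (hΨ2 (S, i)) (hΨ3 (S, i)) e2 e3
    set x := ∑ i ∈ S, P i + T i with hx
    set x' := ∑ i ∈ S', P i + T i' with hx'
    obtain ⟨f0, f1⟩ := dK_add h2 ha hb hab x x'
    obtain ⟨Q, hQ⟩ := half_F (F := K) h2K haK hbK habK (x + x') (f0.trans r0) (f1.trans r1)
    have hTT : (T i + T i') + (T i + T i') = 0 := by
      rw [add_add_add_comm, hT2, hT2, add_zero]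
    have hsum : ∑ i ∈ S, P i + ∑ i ∈ S', P i = ∑ i ∈ symmDiff S S', P i +
        (∑ i ∈ S ∩ S', P i + ∑ i ∈ S ∩ S', P i) := by
      have h1 : ∑ i ∈ S, P i = ∑ i ∈ S \ S', P i + ∑ i ∈ S ∩ S', P i := by
        rw [← Finset.sum_sdiff (Finset.inter_subset_left : S ∩ S' ⊆ S),
          Finset.sdiff_inter_self_left]
      have h3 : ∑ i ∈ S', P i = ∑ i ∈ S' \ S, P i + ∑ i ∈ S ∩ S', P i := by
        rw [← Finset.sum_sdiff (Finset.inter_subset_right : S ∩ S' ⊆ S'),
          Finset.sdiff_inter_self_right]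
      have h4 : ∑ i ∈ symmDiff S S', P i = ∑ i ∈ S \ S', P i + ∑ i ∈ S' \ S, P i := by
        rw [symmDiff_def]
        exact Finset.sum_union (disjoint_sdiff_sdiff)
      rw [h1, h3, h4]
      abel
    have hSS : S = S' := by
      by_contra hne
      have hnon : (symmDiff S S').Nonempty := by
        rw [Finset.nonempty_iff_ne_empty, ← Finset.bot_eq_empty, Ne, symmDiff_eq_bot]
        exact hne
      apply hP _ hnon (T i + T i') (Q - ∑ i ∈ S ∩ S', P i) hTT
      have h5 : ∑ i ∈ symmDiff S S', P i = (Q + Q) - (T i + T i') -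
          (∑ i ∈ S ∩ S', P i + ∑ i ∈ S ∩ S', P i) := by
        rw [hQ, hx, hx']
        have : ∑ i ∈ S, P i + T i + (∑ i ∈ S', P i + T i') - (T i + T i') =
            ∑ i ∈ S, P i + ∑ i ∈ S', P i := by abel
        rw [this, hsum]
        abel
      have h6 : -(T i + T i') = T i + T i' := neg_eq_of_add_eq_zero_left hTT
      rw [h5, sub_eq_add_neg (Q + Q), h6]
      abel
    subst hSS
    have h7 : T i + T i' = (Q - ∑ i ∈ S, P i) + (Q - ∑ i ∈ S, P i) := by
      have : Q - ∑ i ∈ S, P i + (Q - ∑ i ∈ S, P i) = (Q + Q) - (∑ i ∈ S, P i + ∑ i ∈ S, P i) := by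
        abel
      rw [this, hQ, hx, hx']
      abel
    have h8 : T i + T i' = 0 := by
      have sq2 : ∀ {y : K}, y ≠ 0 → SqEq (y * y) 1 := fun hy => ⟨_, hy, by rw [mul_one, pow_two]⟩
      obtain ⟨g0, g1⟩ := dK_add h2 ha hb hab (Q - ∑ i ∈ S, P i) (Q - ∑ i ∈ S, P i)
      rw [← h7] at g0 g1
      exact tor_zero h2 ha hb hab hodd hTT (g0.trans (sq2 (d0_ne hEK _)))
        (g1.trans (sq2 (d1_ne hEK _)))
    have h9 : T i = T i' := by
      have : T i' = -T i' := (neg_eq_of_add_eq_zero_left (hT2 i')).symm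
      rw [this]
      exact eq_neg_of_add_eq_zero_left h8
    rw [hTinj h9]
  -- surjectivity
  have hcard : (Set.range Ψ).encard = 2 ^ (d + 2) := by
    rw [← Set.image_univ, hΨinj.encard_image, Set.encard_univ]
    rw [ENat.card_eq_coe_fintype_card, Fintype.card_prod, Fintype.card_finset, Fintype.card_fin,
      Fintype.card_fin]
    push_cast
    rw [pow_add]
    norm_num
  have hrange : Set.range Ψ = Triples2 a b := by
    apply (Set.finite_range Ψ).eq_of_subset_of_encard_le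
    · rintro _ ⟨x, rfl⟩
      exact hΨ1 x
    · rw [hcard]; exact hd
  obtain ⟨t, hmem, r, s, hr, hs, e0, e1⟩ := trip n0 n1 hls
  have hmem' := hmem
  rw [← hrange] at hmem'
  obtain ⟨x, rfl⟩ := hmem'
  obtain ⟨r0, r1⟩ := same n0 n1 (d0_ne hEK _) (d1_ne hEK _) hls (lsg_ptK h2 ha hb hab _)
    (hΨ1 x) hr hs (hρ x) (hσ x) e0 e1 (hΨ2 x) (hΨ3 x)
  exact ⟨_, un (d0_ne hEK _) r0, un (d1_ne hEK _) r1⟩

include h2 ha hb hab hco hodd in
/-- The criterion over `K = k(t)`. -/
theorem shaTwo_of_rank {d : ℕ} (hd : (Triples2 a b).encard ≤ 2 ^ (d + 2))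
    (P : Fin d → Pt (crv (algebraMap k[X] K a) (algebraMap k[X] K b)) K)
    (hP : ∀ S : Finset (Fin d), S.Nonempty →
      ∀ T Q : Pt (crv (algebraMap k[X] K a) (algebraMap k[X] K b)) K, T + T = 0 →
        ∑ i ∈ S, P i ≠ T + (Q + Q)) :
    ShaTwo k (crv (algebraMap k[X] K a) (algebraMap k[X] K b)) := by
  have h2K : (2 : K) ≠ 0 := tt h2
  have inj := IsFractionRing.injective k[X] K
  have haK : algebraMap k[X] K a ≠ 0 := by simpa using ha
  have hbK : algebraMap k[X] K b ≠ 0 := by simpa using hb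
  have habK : algebraMap k[X] K a ≠ algebraMap k[X] K b := fun h => hab (inj h)
  exact sha_of_points h2K haK hbK habK (pt_of_lsg h2 ha hb hab hco hodd hd P hP)

end core

end Pool.Agent.TH115.GD
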