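import Pool.Agent.TH115.SK.CplK

/-!
Elements of `k(t)` modulo squares, and the decomposition of the pairs which satisfy the conditions
on the parities of the valuations.
-/

set_option autoImplicit false
set_option linter.all false

open Polynomial IsDedekindDomain
open scoped Classical

namespace Pool.Agent.TH115.GD

section

variable {k K : Type} [Field k] [Field K] [Algebra k[X] K] [IsFractionRing k[X] K]

theorem squarefree_C_mul {p : k[X]} {u : k} (hu : u ≠ 0) (hp : Squarefree p) :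
    Squarefree (C u * p) := fun x hx => hp x (dvd_unit_mul hu hx)

theorem sq_dec : ∀ (n : ℕ) (p : k[X]), p.natDegree = n → p ≠ 0 → ∃ (r : k) (S T : k[X]), r ≠ 0 ∧
    S.Monic ∧ Squarefree S ∧ T ≠ 0 ∧ p = C r * S * T ^ 2 := by
  intro n
  induction n using Nat.strong_induction_on with
  | _ n ih =>
    intro p hn hp
    by_cases hs : Squarefree p
    · have hl : p.leadingCoeff ≠ 0 := leadingCoeff_ne_zero.2 hp
      refine ⟨p.leadingCoeff, C p.leadingCoeff⁻¹ * p, 1, hl, ?_,
        squarefree_C_mul (inv_ne_zero hl) hs, one_ne_zero, ?_⟩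
      · rw [Monic, leadingCoeff_mul, leadingCoeff_C, inv_mul_cancel₀ hl]
      · rw [one_pow, mul_one, ← mul_assoc, ← C_mul, mul_inv_cancel₀ hl, C_1, one_mul]
    · rw [Squarefree] at hs
      push Not at hs
      obtain ⟨x, ⟨q, hq⟩, hx⟩ := hs
      have hx0 : x ≠ 0 := by
        rintro rfl
        rw [zero_mul, zero_mul] at hq
        exact hp hq
      have hq0 : q ≠ 0 := by
        rintro rfl
        rw [mul_zero] at hq
        exact hp hq
      have hdx : 0 < x.natDegree := by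
        by_contra h
        apply hx
        have h1 : x.natDegree = 0 := by omega
        rw [natDegree_eq_zero] at h1
        obtain ⟨c, rfl⟩ := h1
        exact isUnit_C.2 (isUnit_iff_ne_zero.2 (fun h => hx0 (by rw [h, C_0])))
      have hdq : q.natDegree < n := by
        rw [← hn, hq, natDegree_mul (mul_ne_zero hx0 hx0) hq0, natDegree_mul hx0 hx0]
        omega
      obtain ⟨r, S, T, hr, hS, hS', hT, e⟩ := ih _ hdq q rfl hq0
      exact ⟨r, S, x * T, hr, hS, hS', mul_ne_zero hx0 hT, by rw [hq, e]; ring⟩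

/-- Elements of `k(t)` modulo squares. -/
theorem sq_decK {x : K} (hx : x ≠ 0) : ∃ (r : k) (S : k[X]) (c : K), r ≠ 0 ∧ S.Monic ∧
    Squarefree S ∧ c ≠ 0 ∧ x = c ^ 2 * algebraMap k[X] K (C r * S) := by
  obtain ⟨n, d, hd, rfl⟩ := IsFractionRing.div_surjective (A := k[X]) x
  have hd0 : d ≠ 0 := nonZeroDivisors.ne_zero hd
  have hn0 : n ≠ 0 := by
    rintro rfl
    simp at hx
  have hdK : algebraMap k[X] K d ≠ 0 := by simpa using hd0
  obtain ⟨r, S, T, hr, hS, hS', hT, e⟩ := sq_dec _ (n * d) rfl (mul_ne_zero hn0 hd0)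
  have hTK : algebraMap k[X] K T ≠ 0 := by simpa using hT
  refine ⟨r, S, algebraMap k[X] K T / algebraMap k[X] K d, hr, hS, hS', div_ne_zero hTK hdK, ?_⟩
  have e' := congrArg (algebraMap k[X] K) e
  rw [map_mul, map_mul, map_pow] at e'
  rw [div_pow, div_mul_eq_mul_div, eq_div_iff (pow_ne_zero 2 hdK)]
  field_simp
  linear_combination e'

theorem dvd_of_primes {S m : k[X]} (hS : Squarefree S)
    (h : ∀ π : k[X], Irreducible π → π ∣ S → π ∣ m) : S ∣ m := by
  obtain ⟨q, hq⟩ := EuclideanDomain.gcd_dvd_left S m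
  have hS0 : S ≠ 0 := hS.ne_zero
  have hu : IsUnit q := by
    by_contra hu
    have hq0 : q ≠ 0 := by
      rintro rfl
      rw [mul_zero] at hq
      exact hS0 hq
    obtain ⟨π, hπ, hπq⟩ := WfDvdMonoid.exists_irreducible_factor hu hq0
    have h1 : π ∣ S := by rw [hq]; exact hπq.mul_left _
    have h3 : π ∣ EuclideanDomain.gcd S m := EuclideanDomain.dvd_gcd h1 (h π hπ h1)
    apply hπ.not_isUnit
    apply hS
    rw [hq]
    exact mul_dvd_mul h3 hπq
  obtain ⟨u, rfl⟩ := hu
  have h5 : S ∣ EuclideanDomain.gcd S m := ⟨↑u⁻¹, (Units.eq_mul_inv_iff_mul_eq u).2 hq.symm⟩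
  exact h5.trans (EuclideanDomain.gcd_dvd_right S m)

variable (v : HeightOneSpectrum k[X])

theorem val_gen {π : k[X]} (hπ : Irreducible π) (hv : ∀ p, p ∈ v.asIdeal ↔ π ∣ p) :
    v.valuation K (algebraMap k[X] K π) = WithZero.exp (-1 : ℤ) := by
  rw [v.valuation_of_algebraMap]
  refine v.intValuation_singleton hπ.ne_zero ?_
  ext p
  rw [hv, Ideal.mem_span_singleton]

theorem not_sq_odd {π p : k[X]} (hv : ∀ p, p ∈ v.asIdeal ↔ π ∣ p) (h : OddFactor π p) :
    ¬ IsSquare (v.valuation K (algebraMap k[X] K p)) := by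
  obtain ⟨hπ, m, ⟨q, hq⟩, hnd⟩ := h
  have hq' : q ∉ v.asIdeal := by
    rw [hv]
    rintro ⟨r, rfl⟩
    exact hnd ⟨r, by rw [hq]; ring⟩
  rw [hq, map_mul, map_pow, map_mul, map_pow, val_gen v hπ hv, (valK_one v).2 hq', mul_one,
    ← WithZero.exp_nsmul, isSquare_exp]
  rw [Int.not_even_iff_odd]
  refine ⟨-(m : ℤ) - 1, ?_⟩
  simp only [nsmul_eq_mul]
  push_cast
  ring

theorem sq_iff_of_squarefree {S : k[X]} (hS : Squarefree S) :
    IsSquare (v.valuation K (algebraMap k[X] K S)) ↔ S ∉ v.asIdeal := by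
  obtain ⟨π, hπ, hv⟩ := exists_gen v
  constructor
  · intro h hm
    rw [hv] at hm
    refine not_sq_odd v hv ⟨hπ, 0, by simpa using hm, fun h' => ?_⟩ h
    apply hπ.not_isUnit
    apply hS
    simpa [pow_two] using h'
  · intro h
    rw [(valK_one v).2 h]
    exact sq_one

theorem sq_iff_dec {S : k[X]} (hS : Squarefree S) {r : k} (hr : r ≠ 0) {c x : K} (hc : c ≠ 0)
    (hx : x = c ^ 2 * algebraMap k[X] K (C r * S)) :
    IsSquare (v.valuation K x) ↔ S ∉ v.asIdeal := by
  rw [hx, sq_mul_sq (v.valuation K) ⟨v.valuation K c, by rw [map_pow, pow_two]⟩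
    (pow_ne_zero 2 hc), map_mul, map_mul, (valK_one v).2 (not_mem_C v hr), one_mul,
    sq_iff_of_squarefree v hS]

end

section dec

variable {k K : Type} [Field k] [Field K] [Algebra k[X] K] [IsFractionRing k[X] K] {a b : k[X]}

/-- A monic squarefree divisor of a product of coprime polynomials. -/
theorem split_monic {S p q : k[X]} (hS : S.Monic) (hS' : Squarefree S) (h : S ∣ p * q) :
    ∃ A B : k[X], A.Monic ∧ B.Monic ∧ Squarefree A ∧ Squarefree B ∧ A ∣ p ∧ B ∣ q ∧ S = A * B := by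
  obtain ⟨A, B, hA, hB, rfl⟩ := exists_dvd_and_dvd_of_dvd_mul h
  have hA0 : A ≠ 0 := by rintro rfl; rw [zero_mul] at hS; exact not_monic_zero hS
  have hB0 : B ≠ 0 := by rintro rfl; rw [mul_zero] at hS; exact not_monic_zero hS
  have lA := leadingCoeff_ne_zero.2 hA0
  have lB := leadingCoeff_ne_zero.2 hB0
  have hl : A.leadingCoeff * B.leadingCoeff = 1 := by
    rw [← leadingCoeff_mul]
    exact hS
  have sA : Squarefree A := hS'.squarefree_of_dvd (dvd_mul_right _ _)
  have sB : Squarefree B := hS'.squarefree_of_dvd (dvd_mul_left _ _)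
  have dC : ∀ {p q : k[X]} {u : k}, u ≠ 0 → p ∣ q → C u * p ∣ q := by
    intro p q u hu h
    exact ((isUnit_C.2 (isUnit_iff_ne_zero.2 hu)).mul_left_dvd).2 h
  refine ⟨C A.leadingCoeff⁻¹ * A, C B.leadingCoeff⁻¹ * B, ?_, ?_,
    squarefree_C_mul (inv_ne_zero lA) sA, squarefree_C_mul (inv_ne_zero lB) sB,
    dC (inv_ne_zero lA) hA, dC (inv_ne_zero lB) hB, ?_⟩
  · rw [Monic, leadingCoeff_mul, leadingCoeff_C, inv_mul_cancel₀ lA]
  · rw [Monic, leadingCoeff_mul, leadingCoeff_C, inv_mul_cancel₀ lB]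
  · have h1 : (C A.leadingCoeff⁻¹ : k[X]) * C B.leadingCoeff⁻¹ = 1 := by
      rw [← C_mul, ← mul_inv, hl, inv_one, C_1]
    linear_combination -A * B * h1

variable (hco : IsCoprime a b)

include hco in
/-- The decomposition of a pair. -/
theorem decK {a0 a1 : K} (n0 : a0 ≠ 0) (n1 : a1 ≠ 0)
    (h0 : ∀ v : HeightOneSpectrum k[X], a ∉ v.asIdeal → b ∉ v.asIdeal →
      IsSquare (v.valuation K a0))
    (h1 : ∀ v : HeightOneSpectrum k[X], a ∉ v.asIdeal → a - b ∉ v.asIdeal →
      IsSquare (v.valuation K a1))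
    (hA : ∀ v : HeightOneSpectrum k[X], b ∉ v.asIdeal → a - b ∉ v.asIdeal →
      IsSquare (v.valuation K (a0 * a1))) :
    ∃ (A B D : k[X]) (r s : k) (c0 c1 : K), A.Monic ∧ B.Monic ∧ D.Monic ∧ Squarefree A ∧
      Squarefree B ∧ Squarefree D ∧ A ∣ a ∧ B ∣ b ∧ D ∣ a - b ∧ r ≠ 0 ∧ s ≠ 0 ∧ c0 ≠ 0 ∧ c1 ≠ 0 ∧
      a0 = c0 ^ 2 * algebraMap k[X] K (C r * (A * B)) ∧
      a1 = c1 ^ 2 * algebraMap k[X] K (C s * (A * D)) := by
  have hcoac : IsCoprime a (a - b) := by
    obtain ⟨x, y, h⟩ := hco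
    exact ⟨x + y, -y, by linear_combination h⟩
  have cop : ∀ {p q π : k[X]}, IsCoprime p q → Irreducible π → π ∣ p → ¬ π ∣ q :=
    fun h hπ hp hq => hπ.not_isUnit (h.isUnit_of_dvd' hp hq)
  obtain ⟨r, S0, c0, hr, mS0, sS0, hc0, e0⟩ := sq_decK (k := k) n0
  obtain ⟨s, S1, c1, hs, mS1, sS1, hc1, e1⟩ := sq_decK (k := k) n1
  have k0 := fun v : HeightOneSpectrum k[X] => sq_iff_dec v sS0 hr hc0 e0
  have k1 := fun v : HeightOneSpectrum k[X] => sq_iff_dec v sS1 hs hc1 e1
  have d0 : S0 ∣ a * b := dvd_of_primes sS0 fun π hπ hd => by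
    by_contra hn
    have hv := fun p => mem_plK hπ (p := p)
    have h3 := h0 (plK hπ) (by rw [hv]; exact fun h => hn (h.mul_right _))
      (by rw [hv]; exact fun h => hn (h.mul_left _))
    rw [k0, hv] at h3
    exact h3 hd
  have d1 : S1 ∣ a * (a - b) := dvd_of_primes sS1 fun π hπ hd => by
    by_contra hn
    have hv := fun p => mem_plK hπ (p := p)
    have h3 := h1 (plK hπ) (by rw [hv]; exact fun h => hn (h.mul_right _))
      (by rw [hv]; exact fun h => hn (h.mul_left _))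
    rw [k1, hv] at h3
    exact h3 hd
  obtain ⟨A, B, mA, mB, sA, sB, dA, dB, rfl⟩ := split_monic mS0 sS0 d0
  obtain ⟨A', D, mA', mD, sA', sD, dA', dD, rfl⟩ := split_monic mS1 sS1 d1
  have hAA : ∀ π : k[X], Irreducible π → π ∣ a → (π ∣ A ↔ π ∣ A') := by
    intro π hπ ha
    have hv := fun p => mem_plK hπ (p := p)
    have nb : ¬ π ∣ b := cop hco hπ ha
    have nc : ¬ π ∣ a - b := cop hcoac hπ ha
    have h3 := hA (plK hπ) (by rwa [hv]) (by rwa [hv])
    have e3 : (π ∣ A * B ↔ π ∣ A' * D) := by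
      have h4 := k0 (plK hπ)
      have h5 := k1 (plK hπ)
      rw [hv] at h4 h5
      rw [← not_iff_not, ← h4, ← h5]
      by_cases hs0 : IsSquare ((plK hπ).valuation K a0)
      · rw [sq_mul_sq _ hs0 n0] at h3
        exact ⟨fun _ => h3, fun _ => hs0⟩
      · constructor
        · intro h
          exact absurd h hs0
        · intro h
          rw [mul_comm, sq_mul_sq _ h n1] at h3
          exact h3
    have e4 : π ∣ A * B ↔ π ∣ A := by
      constructor
      · intro h
        rcases hπ.prime.dvd_or_dvd h with h | h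
        · exact h
        · exact absurd (h.trans dB) nb
      · exact fun h => h.mul_right _
    have e5 : π ∣ A' * D ↔ π ∣ A' := by
      constructor
      · intro h
        rcases hπ.prime.dvd_or_dvd h with h | h
        · exact h
        · exact absurd (h.trans dD) nc
      · exact fun h => h.mul_right _
    rw [← e4, ← e5]
    exact e3
  have hAeq : A = A' := by
    refine eq_of_monic_of_associated mA mA' (associated_of_dvd_dvd ?_ ?_)
    · exact dvd_of_primes sA fun π hπ h => (hAA π hπ (h.trans dA)).1 h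
    · exact dvd_of_primes sA' fun π hπ h => (hAA π hπ (h.trans dA')).2 h
  subst hAeq
  exact ⟨A, B, D, r, s, c0, c1, mA, mB, mD, sA, sB, sD, dA, dB, dD, hr, hs, hc0, hc1, e0, e1⟩

end dec

end Pool.Agent.TH115.GD
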