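import Pool.Agent.TH115.SK.LocInf

/-!
The completions of `k(t)` at the closed points: squares.
-/

set_option autoImplicit false
set_option linter.all false

open Polynomial IsDedekindDomain
open scoped Classical

namespace Pool.Agent.TH115.GD

section

variable {k F : Type} [Field k] [Field F] [Algebra k[X] F] [IsFractionRing k[X] F]

/-- The place of an irreducible polynomial. -/
noncomputable def plK {π : k[X]} (hπ : Irreducible π) : HeightOneSpectrum k[X] where
  asIdeal := Ideal.span {π}
  isPrime := (Ideal.span_singleton_prime hπ.ne_zero).2 hπ.prime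
  ne_bot := by rw [Ne, Ideal.span_singleton_eq_bot]; exact hπ.ne_zero

theorem mem_plK {π : k[X]} (hπ : Irreducible π) {p : k[X]} : p ∈ (plK hπ).asIdeal ↔ π ∣ p :=
  Ideal.mem_span_singleton

theorem exists_gen (v : HeightOneSpectrum k[X]) : ∃ (π : k[X]), Irreducible π ∧
    ∀ p, p ∈ v.asIdeal ↔ π ∣ p := by
  haveI := v.isPrime
  obtain ⟨π, hπ⟩ := (IsPrincipalIdealRing.principal v.asIdeal).principal
  have h1 : v.asIdeal = Ideal.span {π} := hπ
  have h0 : π ≠ 0 := by
    rintro rfl
    apply v.ne_bot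
    rw [h1]
    simp
  refine ⟨π, ?_, fun p => by rw [h1]; exact Ideal.mem_span_singleton⟩
  have : Prime π := by
    rw [← Ideal.span_singleton_prime h0, ← h1]
    exact v.isPrime
  exact this.irreducible

variable (v : HeightOneSpectrum k[X])

theorem valK_one {p : k[X]} : v.valuation F (algebraMap k[X] F p) = 1 ↔ p ∉ v.asIdeal := by
  rw [v.valuation_of_algebraMap, HeightOneSpectrum.intValuation_eq_one_iff]

theorem valK_lt {p : k[X]} : v.valuation F (algebraMap k[X] F p) < 1 ↔ p ∈ v.asIdeal := by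
  rw [HeightOneSpectrum.valuation_lt_one_iff_mem]

theorem not_mem_C {c : k} (hc : c ≠ 0) : C c ∉ v.asIdeal := fun h =>
  v.isPrime.ne_top ((Ideal.eq_top_iff_one _).2 (by
    have h1 : C c⁻¹ * C c ∈ v.asIdeal := v.asIdeal.mul_mem_left _ h
    rwa [← C_mul, inv_mul_cancel₀ hc, C_1] at h1))

theorem valK_two (h2 : (2 : k) ≠ 0) : v.valuation F 2 = 1 := by
  have h1 : (2 : F) = algebraMap k[X] F (C 2) := by
    rw [map_ofNat, map_ofNat]
  rw [h1, valK_one]
  exact not_mem_C v h2

theorem hensK (h2 : (2 : k) ≠ 0) : Hens (wv v (F := F)) := by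
  intro u hu
  obtain ⟨z, hz, -⟩ := sqrt_one v (valK_two v h2) u hu
  exact ⟨z, by rw [← hz, pow_two]⟩

/-- A polynomial which is a square in the completion is a square modulo the place. -/
theorem sqmod_of_loc {π : k[X]} (hπ : Irreducible π) (hv : ∀ p, p ∈ v.asIdeal ↔ π ∣ p) {u : k[X]}
    (h : IsSquare (algebraMap F (Comp k[X] F v) (algebraMap k[X] F u))) : SqMod π u := by
  by_cases hu : π ∣ u
  · exact ⟨0, by rw [pow_two, zero_mul, zero_sub]; exact (dvd_neg).2 hu⟩
  obtain ⟨z, hz⟩ := h
  have hu1 : v.valuation F (algebraMap k[X] F u) = 1 := by rw [valK_one, hv]; exact hu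
  have hwz : wv v z * wv v z = 1 := by
    rw [← map_mul, ← hz, wv_coe, hu1]
  have hz1 : wv v z = 1 := by
    rcases lt_trichotomy (wv v z) 1 with h | h | h
    · exact absurd hwz (mul_lt_one_of_lt_of_le h h.le).ne
    · exact h
    · exact absurd hwz (one_lt_mul_of_lt_of_le' h h.le).ne'
  obtain ⟨f, hf⟩ := dense_F v z (g := (1 : F)) one_ne_zero
  rw [map_one] at hf
  have hwf : v.valuation F f ≤ 1 := by
    rw [← wv_coe]
    have e : algebraMap F (Comp k[X] F v) f = z - (z - algebraMap F (Comp k[X] F v) f) := by ring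
    rw [e]
    exact (Valuation.map_sub _ _ _).trans (max_le hz1.le hf.le)
  -- `f ^ 2 - u` is small
  have hsmall : v.valuation F (f ^ 2 - algebraMap k[X] F u) < 1 := by
    rw [← wv_coe, map_sub, map_pow, hz]
    have e : algebraMap F (Comp k[X] F v) f ^ 2 - z * z =
        -((z - algebraMap F (Comp k[X] F v) f) * (z + algebraMap F (Comp k[X] F v) f)) := by ring
    rw [e, Valuation.map_neg, map_mul]
    refine mul_lt_one_of_lt_of_le hf ?_
    refine (Valuation.map_add _ _ _).trans (max_le hz1.le ?_)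
    rw [wv_coe]
    exact hwf
  obtain ⟨n, d, hrel, hfd⟩ := IsFractionRing.exists_reduced_fraction (A := k[X]) f
  have hd0 : (d : k[X]) ≠ 0 := nonZeroDivisors.ne_zero d.2
  have hdF : algebraMap k[X] F d ≠ 0 := by simpa using hd0
  have hff : f * algebraMap k[X] F d = algebraMap k[X] F n := by
    rw [← hfd]
    exact IsLocalization.mk'_spec F n d
  have hπd : ¬ π ∣ (d : k[X]) := by
    intro hdv
    have hnd : ¬ π ∣ n := fun hn => hπ.not_isUnit (hrel hn hdv)
    have h1 := congrArg (v.valuation F) hff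
    rw [map_mul] at h1
    have h3 : v.valuation F (algebraMap k[X] F n) = 1 := by rw [valK_one, hv]; exact hnd
    have h4 : v.valuation F (algebraMap k[X] F d) < 1 := by rw [valK_lt, hv]; exact hdv
    rw [h3] at h1
    have h5 := mul_lt_one_of_lt_of_le h4 hwf
    rw [mul_comm, h1] at h5
    exact lt_irrefl _ h5
  have hcop : IsCoprime π (d : k[X]) := (hπ.coprime_iff_not_dvd).2 hπd
  obtain ⟨p, m, hpm⟩ := hcop
  have hdvd : π ∣ n ^ 2 - u * (d : k[X]) ^ 2 := by
    rw [← hv, ← valK_lt v (F := F), map_sub, map_mul, map_pow, map_pow, ← hff]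
    have e : (f * algebraMap k[X] F d) ^ 2 - algebraMap k[X] F u * algebraMap k[X] F d ^ 2 =
        (f ^ 2 - algebraMap k[X] F u) * algebraMap k[X] F d ^ 2 := by ring
    rw [e, map_mul, map_pow]
    refine mul_lt_one_of_lt_of_le hsmall ?_
    exact pow_le_one₀ zero_le' (v.valuation_le_one _)
  refine ⟨n * m, ?_⟩
  have e : (n * m) ^ 2 - u = (n ^ 2 - u * (d : k[X]) ^ 2) * m ^ 2 +
      π * (u * p * (m * (d : k[X]) + 1) * (-1)) := by
    have h1 : m * (d : k[X]) = 1 - p * π := by linear_combination hpm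
    linear_combination u * (m * (d : k[X]) + 1) * h1
  rw [e]
  exact dvd_add (hdvd.mul_right _) (dvd_mul_right _ _)

/-- A polynomial which is a square in the completion at infinity. -/
theorem sq_inf {P : k[X]} (hP : P ≠ 0)
    (h : IsSquare (algebraMap F (CompInf k F) (algebraMap k[X] F P))) :
    Even P.natDegree ∧ IsSquare P.leadingCoeff := by
  have hev : Even P.natDegree := by
    obtain ⟨z, hz⟩ := h
    have h1 := congrArg (wi k F) hz
    rw [wi_coe, vInf_poly hP, map_mul] at h1
    have h3 : IsSquare (WithZero.exp (P.natDegree : ℤ) : WithZero (Multiplicative ℤ)) := ⟨_, h1⟩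
    rw [isSquare_exp] at h3
    exact_mod_cast h3
  refine ⟨hev, ?_⟩
  obtain ⟨m, hm⟩ := hev
  have hX0 : algebraMap k[X] F X ≠ 0 := by simp
  have h1 : IsSquare (algebraMap (AtInf F) (Comp k[X] (AtInf F) (pl (0 : k)))
      (algebraMap k[X] (AtInf F) (reverse P))) := by
    obtain ⟨z, hz⟩ := h
    rw [std_inf (F := F) P, hm, ← two_mul, mul_comm 2 m, pow_mul, pow_two, map_mul, map_mul] at hz
    have hY : algebraMap F (CompInf k F) (algebraMap k[X] F X ^ m) ≠ 0 :=
      (_root_.map_ne_zero _).2 (pow_ne_zero m hX0)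
    refine ⟨z / algebraMap F (CompInf k F) (algebraMap k[X] F X ^ m), ?_⟩
    have e : algebraMap F (CompInf k F) (infMap k F (reverse P)) =
        z / algebraMap F (CompInf k F) (algebraMap k[X] F X ^ m) *
        (z / algebraMap F (CompInf k F) (algebraMap k[X] F X ^ m)) := by
      rw [div_mul_div_comm, ← hz]
      field_simp
    exact e
  have hirr : Irreducible (X : k[X]) := irreducible_X
  obtain ⟨z, hz⟩ := sqmod_of_loc (F := AtInf F) (pl (0 : k)) hirr (fun p => by
    rw [mem_pl, IsRoot.def, X_dvd_iff, coeff_zero_eq_eval_zero]) h1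
  rw [X_dvd_iff, coeff_sub, coeff_zero_reverse, sub_eq_zero, pow_two, mul_coeff_zero] at hz
  exact ⟨_, hz.symm⟩

end

end Pool.Agent.TH115.GD
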