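import Pool.Agent.TH115.SK.SelK
import Pool.Agent.TH115.SD.Fam2

/-!
Operations on locally trivial cochains, for a general pair of fields.
-/

set_option autoImplicit false
set_option linter.all false

open Polynomial IsDedekindDomain WeierstrassCurve WeierstrassCurve.Affine
open scoped Classical

namespace Pool.Agent.TH115.GD

section lt

variable {k' K F : Type} [Field k'] [Field K] [Field F] [Algebra K F] [Algebra k'[X] F]
  [IsFractionRing k'[X] F] {W : WeierstrassCurve K}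

theorem lt_sub {f : (Sep F ≃ₐ[F] Sep F) → Pt W (Sep F)} (h : LocallyTrivial k' W f)
    (S : Pt W (Sep F)) : LocallyTrivial k' W (fun σ => f σ - (act W (rs K σ) S - S)) :=
  ⟨fun v => (h.1 v).sub _ S, LocTriv.sub _ h.2 S⟩

theorem lt_smul {f : (Sep F ≃ₐ[F] Sep F) → Pt W (Sep F)} (h : LocallyTrivial k' W f)
    (z : ℤ) : LocallyTrivial k' W (fun σ => z • f σ) :=
  ⟨fun v => (h.1 v).smul _ z, LocTriv.smul _ h.2 z⟩

theorem lt_rep {a b : K} (hE : ∀ (L : Type) [Field L] [Algebra K L],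
      IsE (W.baseChange L).toAffine (algebraMap K L a) (algebraMap K L b))
    {f : (Sep F ≃ₐ[F] Sep F) → Pt W (Sep F)} (h : LocallyTrivial k' W f)
    (hf2 : ∀ σ, f σ + f σ = 0) {t0 t1 : Sep F} {a0 a1 : F}
    (n0 : t0 ≠ 0) (n1 : t1 ≠ 0)
    (e0 : t0 ^ 2 = algebraMap F (Sep F) a0) (e1 : t1 ^ 2 = algebraMap F (Sep F) a1)
    (k0 : ∀ σ, σ t0 = s0 (f σ) * t0) (k1 : ∀ σ, σ t1 = s1 (algebraMap K (Sep F) a) (f σ) * t1) :
    LSg k' W a b a0 a1 :=
  ⟨fun v => loc_rep _ (hE _) hf2 (h.1 v) n0 n1 e0 e1 k0 k1,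
    loc_rep _ (hE _) hf2 h.2 n0 n1 e0 e1 k0 k1⟩

end lt

end Pool.Agent.TH115.GD
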