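import Pool.Agent.TH115.SK.LocK

/-!
The place at infinity: the classes of the points are the classes of the points of order two.
-/

set_option autoImplicit false
set_option linter.all false

open WeierstrassCurve WeierstrassCurve.Affine
open scoped Classical

namespace Pool.Agent.TH115.GD

open Pool.Agent.W309.TD (sq_of_nonsq IsSquare.of_mul_left')

section

variable {L : Type} [Field L] {w : Valuation L (WithZero (Multiplicative ℤ))}

/-- The coordinates of the points of order two. -/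
def TorCls (a b p q : L) : Prop :=
  (p = 1 ∧ q = 1) ∨ (p = a * b ∧ q = -a) ∨ (p = a ∧ q = a * (a - b)) ∨ (p = b ∧ q = b - a)

variable (hH : Hens w) {W : Affine L} {a b : L} (hE : IsE W a b)

include hH hE in
/-- If two of the valuations of `a`, `b`, `a - b` are maximal and odd. -/
theorem locInf (hM : (¬ IsSquare (w a) ∧ w b = w a) ∨ (¬ IsSquare (w a) ∧ w (a - b) = w a) ∨
    (¬ IsSquare (w b) ∧ w (a - b) = w b)) (Q : W.Point) :
    ∃ p q : L, TorCls a b p q ∧ SqEq (d0 a b Q) p ∧ SqEq (d1 a b Q) q := by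
  have hb0 : b ≠ 0 := hE.neb
  have ha0 : a ≠ 0 := hE.nea
  have hab : a ≠ b := hE.neab
  have neg : ∀ {x : L}, w (0 - x) = w x := fun {x} => by rw [zero_sub, Valuation.map_neg]
  rcases Q with _ | ⟨x, y, hxy⟩
  · exact ⟨1, 1, Or.inl ⟨rfl, rfl⟩, SqEq.refl _, SqEq.refl _⟩
  have he : y ^ 2 = x * (x - a) * (x - b) := hE.nonsingular.1 hxy
  simp only [d0, d1]
  by_cases x0 : x = 0
  · rw [if_pos x0, if_neg (by rw [x0]; exact Ne.symm ha0), x0, zero_sub]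
    exact ⟨a * b, -a, Or.inr (Or.inl ⟨rfl, rfl⟩), SqEq.refl _, SqEq.refl _⟩
  by_cases xa : x = a
  · rw [if_neg x0, if_pos xa, xa]
    exact ⟨a, a * (a - b), Or.inr (Or.inr (Or.inl ⟨rfl, rfl⟩)), SqEq.refl _, SqEq.refl _⟩
  by_cases xb : x = b
  · rw [if_neg x0, if_neg xa, xb]
    exact ⟨b, b - a, Or.inr (Or.inr (Or.inr ⟨rfl, rfl⟩)), SqEq.refl _, SqEq.refl _⟩
  rw [if_neg x0, if_neg xa]
  rcases hM with ⟨h, h'⟩ | ⟨h, h'⟩ | ⟨h, h'⟩
  · have key := inf3 hH (e1 := 0) (e2 := a) (e3 := b) (x := x) (y := y) (by rwa [neg])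
      (by rw [neg, neg]; exact h') hab x0 xa xb (by rw [he]; ring)
    rw [sub_zero] at key
    rcases key with ⟨k1, k2, k3⟩ | ⟨k1, k2, k3⟩ | ⟨k1, k2, k3⟩ | ⟨k1, k2, k3⟩
    · exact ⟨1, 1, Or.inl ⟨rfl, rfl⟩, k1, k2⟩
    · refine ⟨a * b, -a, Or.inr (Or.inl ⟨rfl, rfl⟩), ?_, ?_⟩
      · have e : (0 - a) * (0 - b) = a * b := by ring
        rwa [e] at k1
      · rwa [zero_sub] at k2
    · refine ⟨a, a * (a - b), Or.inr (Or.inr (Or.inl ⟨rfl, rfl⟩)), ?_, ?_⟩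
      · rwa [sub_zero] at k1
      · rwa [sub_zero] at k2
    · refine ⟨b, b - a, Or.inr (Or.inr (Or.inr ⟨rfl, rfl⟩)), ?_, ?_⟩
      · rwa [sub_zero] at k1
      · exact k2
  · have key := inf3 hH (e1 := a) (e2 := 0) (e3 := b) (x := x) (y := y) (by rwa [sub_zero])
      (by rw [sub_zero]; exact h') (Ne.symm hb0) xa x0 xb (by rw [he]; ring)
    rw [sub_zero] at key
    rcases key with ⟨k1, k2, k3⟩ | ⟨k1, k2, k3⟩ | ⟨k1, k2, k3⟩ | ⟨k1, k2, k3⟩
    · exact ⟨1, 1, Or.inl ⟨rfl, rfl⟩, k2, k1⟩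
    · refine ⟨a, a * (a - b), Or.inr (Or.inr (Or.inl ⟨rfl, rfl⟩)), ?_, ?_⟩
      · rwa [sub_zero] at k2
      · rwa [sub_zero] at k1
    · refine ⟨a * b, -a, Or.inr (Or.inl ⟨rfl, rfl⟩), ?_, ?_⟩
      · have e : (0 - a) * (0 - b) = a * b := by ring
        rwa [e] at k2
      · rwa [zero_sub] at k1
    · refine ⟨b, b - a, Or.inr (Or.inr (Or.inr ⟨rfl, rfl⟩)), ?_, ?_⟩
      · rwa [sub_zero] at k2
      · exact k1
  · have key := inf3 hH (e1 := b) (e2 := 0) (e3 := a) (x := x) (y := y) (by rwa [sub_zero])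
      (by rw [sub_zero, Valuation.map_sub_swap]; exact h') (Ne.symm ha0) xb x0 xa
      (by rw [he]; ring)
    rw [sub_zero] at key
    rcases key with ⟨k1, k2, k3⟩ | ⟨k1, k2, k3⟩ | ⟨k1, k2, k3⟩ | ⟨k1, k2, k3⟩
    · exact ⟨1, 1, Or.inl ⟨rfl, rfl⟩, k2, k3⟩
    · refine ⟨b, b - a, Or.inr (Or.inr (Or.inr ⟨rfl, rfl⟩)), ?_, ?_⟩
      · rwa [sub_zero] at k2
      · exact k3
    · refine ⟨a * b, -a, Or.inr (Or.inl ⟨rfl, rfl⟩), ?_, ?_⟩
      · have e : (0 - b) * (0 - a) = a * b := by ring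
        rwa [e] at k2
      · rwa [zero_sub] at k3
    · refine ⟨a, a * (a - b), Or.inr (Or.inr (Or.inl ⟨rfl, rfl⟩)), ?_, ?_⟩
      · rwa [sub_zero] at k2
      · have e : (a - b) * (a - 0) = a * (a - b) := by ring
        rwa [e] at k3

end

end Pool.Agent.TH115.GD
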