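import Pool.Agent.TH115.SD.Crit2

/-!
The points of `y ^ 2 = x (x - a) (x - b)` over a henselian field with an arbitrary residue field.
-/

set_option autoImplicit false
set_option linter.all false

open WeierstrassCurve WeierstrassCurve.Affine
open scoped Classical

namespace Pool.Agent.TH115.GD

open Pool.Agent.W309.TD (sq_of_nonsq IsSquare.of_mul_left')

section

variable {L : Type} [Field L] {w : Valuation L (WithZero (Multiplicative ℤ))}

theorem SqEq.ne {x y : L} (h : SqEq x y) (hy : y ≠ 0) : x ≠ 0 := by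
  obtain ⟨c, hc, rfl⟩ := h
  exact mul_ne_zero (pow_ne_zero 2 hc) hy

theorem SqEq.sq {x : L} (hx : x ≠ 0) : SqEq (x ^ 2) 1 := ⟨x, hx, by ring⟩

/-- Cancellation. -/
theorem SqEq.cancel {x y z : L} (hx : x ≠ 0) (h : SqEq (x * y) (x * z)) : SqEq y z := by
  obtain ⟨c, hc, e⟩ := h
  refine ⟨c, hc, mul_left_cancel₀ hx ?_⟩
  rw [e]; ring

/-- Every element which is near to one is a square. -/
def Hens (w : Valuation L (WithZero (Multiplicative ℤ))) : Prop :=
  ∀ u : L, w (u - 1) < 1 → IsSquare u

variable (hH : Hens w)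

include hH in
theorem near {x y : L} (h : w (x - y) < w y) : SqEq x y := by
  have hy : y ≠ 0 := by
    rintro rfl
    rw [map_zero] at h
    exact not_lt_zero' h
  have hx : x ≠ 0 := by
    rintro rfl
    rw [zero_sub, Valuation.map_neg] at h
    exact lt_irrefl _ h
  have h1 : w (x / y - 1) < 1 := by
    have e : x / y - 1 = (x - y) / y := by field_simp
    rw [e, map_div₀]
    exact (div_lt_one₀ (zero_lt_iff.2 ((Valuation.ne_zero_iff _).2 hy))).2 h
  obtain ⟨z, hz⟩ := hH _ h1
  refine ⟨z, ?_, ?_⟩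
  · rintro rfl
    rw [mul_zero, div_eq_zero_iff] at hz
    rcases hz with h | h
    · exact hx h
    · exact hy h
  · rw [pow_two, ← hz]
    field_simp

include hH in
theorem near_add {x y z : L} (e : x = y + z) (h : w z < w y) : SqEq x y :=
  near hH (by rw [e, add_sub_cancel_left]; exact h)

theorem isSq_cube {g h : WithZero (Multiplicative ℤ)} (hg : g ≠ 0) (e : h * h = g * g * g) :
    IsSquare g := sq_cancel hg (by rw [e])

variable {W : Affine L} {a b : L} (hE : IsE W a b)

include hH hE in
/-- Places of odd multiplicity of `a`. -/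
theorem locKA (wa : ¬ IsSquare (w a)) (wa' : w a ≤ 1) (wb : w b = 1) (wab : w (a - b) = 1)
    (Q : W.Point) :
    (IsSquare (w (d0 a b Q)) → SqEq (d0 a b Q * d1 a b Q) 1) ∧
    (¬ IsSquare (w (d0 a b Q)) → SqEq (d0 a b Q * d1 a b Q) (-b)) := by
  have wlt : w a < 1 := lt_of_le_of_ne wa' fun h => wa (h ▸ sq_one)
  have hb0 : b ≠ 0 := hE.neb
  have ha0 : a ≠ 0 := hE.nea
  rcases Q with _ | ⟨x, y, hxy⟩
  · simp only [d0, d1, map_one, mul_one]
    exact ⟨fun _ => SqEq.refl 1, fun h => absurd sq_one h⟩
  have he : y ^ 2 = x * (x - a) * (x - b) := hE.nonsingular.1 hxy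
  have hve : w y * w y = w x * w (x - a) * w (x - b) := by
    rw [← map_mul, ← map_mul, ← map_mul, ← he, pow_two]
  simp only [d0, d1]
  by_cases x0 : x = 0
  · rw [if_pos x0, if_neg (by rw [x0]; exact Ne.symm ha0), x0]
    refine ⟨fun h => ?_, fun _ => ⟨a, ha0, by ring⟩⟩
    rw [map_mul, wb, mul_one] at h
    exact absurd h wa
  by_cases xa : x = a
  · rw [if_neg x0, if_pos xa, xa]
    refine ⟨fun h => absurd h wa, fun _ => ?_⟩
    have h1 : SqEq (a - b) (-b) := near hH (by
      rw [sub_neg_eq_add, sub_add_cancel, Valuation.map_neg, wb]; exact wlt)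
    have h3 := (SqEq.sq ha0).mul h1
    rw [one_mul] at h3
    have e : a * (a * (a - b)) = a ^ 2 * (a - b) := by ring
    rw [e]
    exact h3
  rw [if_neg x0, if_neg xa]
  have nxa : x - a ≠ 0 := sub_ne_zero.2 xa
  have big : w a < w x → SqEq (x * (x - a)) 1 := by
    intro h
    have h1 : SqEq (x - a) x := near_add hH (z := -a) (by ring) (by rwa [Valuation.map_neg])
    have h3 := (SqEq.refl x).mul h1
    rw [← pow_two] at h3
    exact h3.trans (SqEq.sq x0)
  rcases lt_trichotomy (w x) 1 with hx | hx | hx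
  · -- small
    have wxb : w (x - b) = 1 := sub_eq_one hx wb
    have h1 : SqEq (x - b) (-b) := near hH (by
      rw [sub_neg_eq_add, sub_add_cancel, Valuation.map_neg, wb]; exact hx)
    have nxb : x - b ≠ 0 := fun h => by rw [h, map_zero] at wxb; exact zero_ne_one wxb
    have ny : y ≠ 0 := by
      rintro rfl
      have : x * (x - a) * (x - b) = 0 := by rw [← he]; ring
      exact (mul_ne_zero (mul_ne_zero x0 nxa) nxb) this
    have h5 : SqEq (x * (x - a)) (-b) := by
      have h3 : SqEq (-b * (x * (x - a))) (-b * (-b)) := by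
        have h4 := (SqEq.refl (x * (x - a))).mul h1.symm
        rw [mul_comm (-b) (x * (x - a))]
        refine h4.trans ?_
        rw [← he]
        refine (SqEq.sq ny).trans ?_
        have := (SqEq.sq (neg_ne_zero.2 hb0)).symm
        rw [pow_two] at this
        exact this
      exact h3.cancel (neg_ne_zero.2 hb0)
    refine ⟨fun h => ?_, fun _ => h5⟩
    apply big
    by_contra hle
    rw [not_lt] at hle
    rcases hle.eq_or_lt with e | e
    · exact wa (e ▸ h)
    · have e1 : w (x - a) = w a := by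
        rw [Valuation.map_sub_swap, Valuation.map_sub_eq_of_lt_left _ e]
      rw [e1, wxb, mul_one] at hve
      exact wa (IsSquare.of_mul_left' h ((Valuation.ne_zero_iff _).2 x0) ⟨_, hve.symm⟩)
  · exact ⟨fun _ => big (by rw [hx]; exact wlt), fun h => absurd (by rw [hx]; exact sq_one) h⟩
  · refine ⟨fun _ => big (wlt.trans hx), fun h => absurd ?_ h⟩
    have e1 : w (x - a) = w x := Valuation.map_sub_eq_of_lt_left _ (wlt.trans hx)
    have e2 : w (x - b) = w x := Valuation.map_sub_eq_of_lt_left _ (by rw [wb]; exact hx)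
    rw [e1, e2] at hve
    exact isSq_cube ((Valuation.ne_zero_iff _).2 x0) hve

include hH hE in
/-- Places of odd multiplicity of `b`. -/
theorem locKB (wa : w a = 1) (wb : ¬ IsSquare (w b)) (wb' : w b ≤ 1) (wab : w (a - b) = 1)
    (Q : W.Point) :
    (IsSquare (w (d0 a b Q)) → SqEq (d1 a b Q) 1) ∧
    (¬ IsSquare (w (d0 a b Q)) → SqEq (d1 a b Q) (-a)) := by
  have wlt : w b < 1 := lt_of_le_of_ne wb' fun h => wb (h ▸ sq_one)
  have hb0 : b ≠ 0 := hE.neb
  have ha0 : a ≠ 0 := hE.nea
  rcases Q with _ | ⟨x, y, hxy⟩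
  · simp only [d0, d1, map_one]
    exact ⟨fun _ => SqEq.refl 1, fun h => absurd sq_one h⟩
  have he : y ^ 2 = x * (x - a) * (x - b) := hE.nonsingular.1 hxy
  have hve : w y * w y = w x * w (x - a) * w (x - b) := by
    rw [← map_mul, ← map_mul, ← map_mul, ← he, pow_two]
  simp only [d0, d1]
  by_cases x0 : x = 0
  · rw [if_pos x0, if_neg (by rw [x0]; exact Ne.symm ha0), x0, zero_sub]
    refine ⟨fun h => ?_, fun _ => SqEq.refl _⟩
    rw [map_mul, wa, one_mul] at h
    exact absurd h wb
  by_cases xa : x = a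
  · rw [if_neg x0, if_pos xa, xa]
    refine ⟨fun _ => ?_, fun h => absurd (by rw [wa]; exact sq_one) h⟩
    have h1 : SqEq (a - b) a := near_add hH (z := -b) (by ring) (by
      rw [Valuation.map_neg, wa]; exact wlt)
    have h3 := (SqEq.refl a).mul h1
    rw [← pow_two] at h3
    exact h3.trans (SqEq.sq ha0)
  rw [if_neg x0, if_neg xa]
  have nxa : x - a ≠ 0 := sub_ne_zero.2 xa
  have big : w b < w x → SqEq (x - a) 1 := by
    intro h
    have h1 : SqEq (x - b) x := near_add hH (z := -b) (by ring) (by rwa [Valuation.map_neg])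
    have nxb : x - b ≠ 0 := h1.ne x0
    have ny : y ≠ 0 := by
      rintro rfl
      have : x * (x - a) * (x - b) = 0 := by rw [← he]; ring
      exact (mul_ne_zero (mul_ne_zero x0 nxa) nxb) this
    have h3 := (SqEq.refl (x * (x - a))).mul h1
    rw [← he] at h3
    have h4 : SqEq (x ^ 2 * (x - a)) (x ^ 2 * 1) := by
      have e : x ^ 2 * (x - a) = x * (x - a) * x := by ring
      rw [e]
      refine h3.symm.trans ((SqEq.sq ny).trans ?_)
      rw [mul_one]
      exact (SqEq.sq x0).symm
    exact h4.cancel (pow_ne_zero 2 x0)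
  rcases lt_trichotomy (w x) 1 with hx | hx | hx
  · -- small
    have wxa : w (x - a) = 1 := sub_eq_one hx wa
    have h1 : SqEq (x - a) (-a) := near hH (by
      rw [sub_neg_eq_add, sub_add_cancel, Valuation.map_neg, wa]; exact hx)
    refine ⟨fun h => ?_, fun _ => h1⟩
    apply big
    by_contra hle
    rw [not_lt] at hle
    rcases hle.eq_or_lt with e | e
    · exact wb (e ▸ h)
    · have e1 : w (x - b) = w b := by
        rw [Valuation.map_sub_swap, Valuation.map_sub_eq_of_lt_left _ e]
      rw [e1, wxa, mul_one] at hve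
      exact wb (IsSquare.of_mul_left' h ((Valuation.ne_zero_iff _).2 x0) ⟨_, hve.symm⟩)
  · exact ⟨fun _ => big (by rw [hx]; exact wlt), fun h => absurd (by rw [hx]; exact sq_one) h⟩
  · refine ⟨fun _ => big (wlt.trans hx), fun h => absurd ?_ h⟩
    have e1 : w (x - a) = w x := Valuation.map_sub_eq_of_lt_left _ (by rw [wa]; exact hx)
    have e2 : w (x - b) = w x := Valuation.map_sub_eq_of_lt_left _ (wlt.trans hx)
    rw [e1, e2] at hve
    exact isSq_cube ((Valuation.ne_zero_iff _).2 x0) hve

include hH hE in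
/-- Places of odd multiplicity of `a - b`. -/
theorem locKC (wa : w a = 1) (wb : w b = 1) (wab : ¬ IsSquare (w (a - b)))
    (wab' : w (a - b) ≤ 1) (Q : W.Point) :
    (IsSquare (w (d1 a b Q)) → SqEq (d0 a b Q) 1) ∧
    (¬ IsSquare (w (d1 a b Q)) → SqEq (d0 a b Q) a) := by
  have wlt : w (a - b) < 1 := lt_of_le_of_ne wab' fun h => wab (h ▸ sq_one)
  have hb0 : b ≠ 0 := hE.neb
  have ha0 : a ≠ 0 := hE.nea
  rcases Q with _ | ⟨x, y, hxy⟩
  · simp only [d0, d1, map_one]
    exact ⟨fun _ => SqEq.refl 1, fun h => absurd sq_one h⟩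
  have he : y ^ 2 = x * (x - a) * (x - b) := hE.nonsingular.1 hxy
  have hve : w y * w y = w x * w (x - a) * w (x - b) := by
    rw [← map_mul, ← map_mul, ← map_mul, ← he, pow_two]
  simp only [d0, d1]
  by_cases x0 : x = 0
  · rw [if_pos x0, if_neg (by rw [x0]; exact Ne.symm ha0), x0, zero_sub, Valuation.map_neg, wa]
    refine ⟨fun _ => ?_, fun h => absurd sq_one h⟩
    have h1 : SqEq b a := near hH (by rw [Valuation.map_sub_swap, wa]; exact wlt)
    have h3 := (SqEq.refl a).mul h1
    rw [← pow_two] at h3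
    exact h3.trans (SqEq.sq ha0)
  by_cases xa : x = a
  · rw [if_neg x0, if_pos xa, xa]
    refine ⟨fun h => ?_, fun _ => SqEq.refl _⟩
    rw [map_mul, wa, one_mul] at h
    exact absurd h wab
  rw [if_neg x0, if_neg xa]
  have nxa : x - a ≠ 0 := sub_ne_zero.2 xa
  have big : w (a - b) < w (x - a) → SqEq x 1 := by
    intro h
    have h1 : SqEq (x - b) (x - a) := near_add hH (z := a - b) (by ring) h
    have nxb : x - b ≠ 0 := h1.ne nxa
    have ny : y ≠ 0 := by
      rintro rfl
      have : x * (x - a) * (x - b) = 0 := by rw [← he]; ring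
      exact (mul_ne_zero (mul_ne_zero x0 nxa) nxb) this
    have h3 := (SqEq.refl (x * (x - a))).mul h1
    rw [← he] at h3
    have h4 : SqEq ((x - a) ^ 2 * x) ((x - a) ^ 2 * 1) := by
      have e : (x - a) ^ 2 * x = x * (x - a) * (x - a) := by ring
      rw [e]
      refine h3.symm.trans ((SqEq.sq ny).trans ?_)
      rw [mul_one]
      exact (SqEq.sq nxa).symm
    exact h4.cancel (pow_ne_zero 2 nxa)
  rcases lt_trichotomy (w (x - a)) 1 with hx | hx | hx
  · -- small
    have h1 : SqEq x a := near hH (by rw [wa]; exact hx)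
    have wx : w x = 1 := eq_of_lt hx wa
    refine ⟨fun h => ?_, fun _ => h1⟩
    apply big
    by_contra hle
    rw [not_lt] at hle
    rcases hle.eq_or_lt with e | e
    · exact wab (e ▸ h)
    · have e1 : w (x - b) = w (a - b) := by
        have : x - b = (x - a) + (a - b) := by ring
        rw [this, Valuation.map_add_eq_of_lt_right _ e]
      rw [e1, wx, one_mul] at hve
      exact wab (IsSquare.of_mul_left' h ((Valuation.ne_zero_iff _).2 nxa) ⟨_, hve.symm⟩)
  · exact ⟨fun _ => big (by rw [hx]; exact wlt), fun h => absurd (by rw [hx]; exact sq_one) h⟩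
  · refine ⟨fun _ => big (wlt.trans hx), fun h => absurd ?_ h⟩
    have e1 : w x = w (x - a) := by
      have : x = (x - a) + a := by ring
      nth_rewrite 1 [this]
      exact Valuation.map_add_eq_of_lt_left _ (by rw [wa]; exact hx)
    have e2 : w (x - b) = w (x - a) := by
      have : x - b = (x - a) + (a - b) := by ring
      rw [this]
      exact Valuation.map_add_eq_of_lt_left _ (wlt.trans hx)
    rw [e1, e2] at hve
    exact isSq_cube ((Valuation.ne_zero_iff _).2 nxa) hve

include hH in
/-- Three roots, two of the three distances are maximal and odd. -/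
theorem inf3 {e1 e2 e3 x y : L} (m12 : ¬ IsSquare (w (e1 - e2)))
    (m13 : w (e1 - e3) = w (e1 - e2)) (n23 : e2 ≠ e3)
    (n1 : x ≠ e1) (n2 : x ≠ e2) (n3 : x ≠ e3) (he : y ^ 2 = (x - e1) * (x - e2) * (x - e3)) :
    (SqEq (x - e1) 1 ∧ SqEq (x - e2) 1 ∧ SqEq (x - e3) 1) ∨
    (SqEq (x - e1) ((e1 - e2) * (e1 - e3)) ∧ SqEq (x - e2) (e1 - e2) ∧ SqEq (x - e3) (e1 - e3)) ∨
    (SqEq (x - e1) (e2 - e1) ∧ SqEq (x - e2) ((e2 - e1) * (e2 - e3)) ∧ SqEq (x - e3) (e2 - e3)) ∨
    (SqEq (x - e1) (e3 - e1) ∧ SqEq (x - e2) (e3 - e2) ∧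
      SqEq (x - e3) ((e3 - e1) * (e3 - e2))) := by
  have u1 : x - e1 ≠ 0 := sub_ne_zero.2 n1
  have u2 : x - e2 ≠ 0 := sub_ne_zero.2 n2
  have u3 : x - e3 ≠ 0 := sub_ne_zero.2 n3
  have ny : y ≠ 0 := by
    rintro rfl
    have : (x - e1) * (x - e2) * (x - e3) = 0 := by rw [← he]; ring
    exact (mul_ne_zero (mul_ne_zero u1 u2) u3) this
  have hve : w y * w y = w (x - e1) * w (x - e2) * w (x - e3) := by
    rw [← map_mul, ← map_mul, ← map_mul, ← he, pow_two]
  -- the product of three classes
  have third : ∀ {u v t p q : L}, u ≠ 0 → v ≠ 0 → t ≠ 0 → y ^ 2 = u * v * t → SqEq v p →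
      SqEq t q → SqEq u (p * q) := by
    intro u v t p q hu hv ht e hv' ht'
    have h1 := hv'.mul ht'
    refine SqEq.trans ?_ h1
    have h3 : SqEq (v * t * u) (v * t * (v * t)) := by
      have e' : v * t * u = y ^ 2 := by rw [e]; ring
      rw [e']
      refine (SqEq.sq ny).trans ?_
      rw [← pow_two]
      exact (SqEq.sq (mul_ne_zero hv ht)).symm
    exact h3.cancel (mul_ne_zero hv ht)
  rcases lt_trichotomy (w (x - e1)) (w (e1 - e2)) with h | h | h
  · -- near `e1`
    right; left
    have k2 : SqEq (x - e2) (e1 - e2) := near_add hH (z := x - e1) (by ring) h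
    have k3 : SqEq (x - e3) (e1 - e3) := near_add hH (z := x - e1) (by ring) (by rw [m13]; exact h)
    exact ⟨third u1 u2 u3 he k2 k3, k2, k3⟩
  · -- at distance `M` of `e1`
    right; right
    have w2 : w (x - e2) ≤ w (e1 - e2) := by
      have : x - e2 = (x - e1) + (e1 - e2) := by ring
      rw [this]
      exact (Valuation.map_add _ _ _).trans (max_le h.le le_rfl)
    have hM : w (e2 - e3) ≤ w (e1 - e2) := by
      have : e2 - e3 = (e1 - e3) - (e1 - e2) := by ring
      rw [this]
      exact (Valuation.map_sub _ _ _).trans (max_le m13.le le_rfl)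
    have ns : ¬ IsSquare (w (x - e2) * w (x - e3)) := by
      intro hs
      apply m12
      rw [h, mul_assoc] at hve
      have hs' : IsSquare (w (x - e2) * w (x - e3) * w (e1 - e2)) := by
        rw [mul_comm]
        exact ⟨w y, hve.symm⟩
      exact IsSquare.of_mul_left' hs (mul_ne_zero ((Valuation.ne_zero_iff _).2 u2)
        ((Valuation.ne_zero_iff _).2 u3)) hs'
    have n23' : e2 - e3 ≠ 0 := sub_ne_zero.2 n23
    rcases lt_trichotomy (w (x - e2)) (w (e2 - e3)) with h2 | h2 | h2
    · left
      have k3 : SqEq (x - e3) (e2 - e3) := near_add hH (z := x - e2) (by ring) h2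
      have k1 : SqEq (x - e1) (e2 - e1) := near_add hH (z := x - e2) (by ring) (by
        rw [Valuation.map_sub_swap w e2 e1]; exact lt_of_lt_of_le h2 hM)
      refine ⟨k1, third u2 u1 u3 (by rw [he]; ring) k1 k3, k3⟩
    · -- then `w (x - e3) < w (e2 - e3)`
      right
      have h3 : w (x - e3) < w (e2 - e3) := by
        have hle : w (x - e3) ≤ w (e2 - e3) := by
          have : x - e3 = (x - e2) + (e2 - e3) := by ring
          rw [this]
          exact (Valuation.map_add _ _ _).trans (max_le h2.le le_rfl)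
        refine lt_of_le_of_ne hle fun e => ns ?_
        rw [h2, e]
        exact sq_self _
      have k2 : SqEq (x - e2) (e3 - e2) := near_add hH (z := x - e3) (by ring) (by
        rw [Valuation.map_sub_swap w e3 e2]; exact h3)
      have k1 : SqEq (x - e1) (e3 - e1) := near_add hH (z := x - e3) (by ring) (by
        rw [Valuation.map_sub_swap w e3 e1, m13]; exact lt_of_lt_of_le h3 hM)
      exact ⟨k1, k2, third u3 u1 u2 (by rw [he]; ring) k1 k2⟩
    · exfalso
      apply ns
      have e : w (x - e3) = w (x - e2) := by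
        have : x - e3 = (x - e2) + (e2 - e3) := by ring
        rw [this]
        exact Valuation.map_add_eq_of_lt_left _ h2
      rw [e]
      exact sq_self _
  · -- far
    left
    have k2 : SqEq (x - e2) (x - e1) := near_add hH (z := e1 - e2) (by ring) h
    have k3 : SqEq (x - e3) (x - e1) := near_add hH (z := e1 - e3) (by ring) (by
      rw [m13]; exact h)
    have k1 : SqEq (x - e1) 1 := by
      have := third u1 u2 u3 he k2 k3
      refine this.trans ?_
      rw [← pow_two]
      exact SqEq.sq u1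
    exact ⟨k1, k2.trans k1, k3.trans k1⟩

end

end Pool.Agent.TH115.GD
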