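import Pool.Agent.TH115.SK.DecK

/-!
The 2-Selmer group over `k(t)`.
-/

set_option autoImplicit false
set_option linter.all false

open Polynomial IsDedekindDomain WeierstrassCurve WeierstrassCurve.Affine
open scoped Classical

namespace Pool.Agent.TH115.GD

/-- Local solubility, with respect to an embedding. -/
def LocR {K L : Type} [Field K] [Field L] (j : K →+* L) (α β a0 a1 : K) : Prop :=
  ∃ (W : Affine L) (Q : W.Point) (c0 c1 : L), IsE W (j α) (j β) ∧ c0 ≠ 0 ∧ c1 ≠ 0 ∧
    j a0 = c0 ^ 2 * d0 (j α) (j β) Q ∧ j a1 = c1 ^ 2 * d1 (j α) (j β) Q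

section par

variable {K L : Type} [Field K] [Field L] {j : K →+* L}
  {w : Valuation L (WithZero (Multiplicative ℤ))} {v : Valuation K (WithZero (Multiplicative ℤ))}
  (hwv : ∀ x, w (j x) = v x) {α β a0 a1 : K} (hs : LocR j α β a0 a1)

include hwv hs in
/-- The parities of the valuations. -/
theorem parR {M : WithZero (Multiplicative ℤ)} (hM : IsSquare M) (hM0 : M ≠ 0)
    (va : v α ≤ M) (vb : v β ≤ M) :
    (v α = M → v β = M → IsSquare (v a0)) ∧
    (v α = M → v (α - β) = M → IsSquare (v a1)) ∧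
    (v β = M → v (α - β) = M → IsSquare (v (a0 * a1))) := by
  obtain ⟨W, Q, c0, c1, hL, n0, n1, e0, e1⟩ := hs
  have wab : w (j α - j β) = v (α - β) := by rw [← map_sub, hwv]
  refine ⟨fun h h' => ?_, fun h h' => ?_, fun h h' => ?_⟩
  · have k0 := loc0 (v := w) hL hM hM0 ((hwv α).trans h) ((hwv β).trans h') Q
    rw [← hwv, e0, map_mul, map_pow, pow_two]
    exact IsSquare.mul ⟨_, rfl⟩ k0
  · have k1 := loc1 (v := w) hL hM hM0 ((hwv α).trans h) ((hwv β).le.trans vb) (wab.trans h') Q
    rw [← hwv, e1, map_mul, map_pow, pow_two]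
    exact IsSquare.mul ⟨_, rfl⟩ k1
  · have k0 := locA (v := w) hL hM hM0 ((hwv α).le.trans va) ((hwv β).trans h) (wab.trans h') Q
    rw [← hwv, map_mul, e0, e1]
    have e : c0 ^ 2 * d0 (j α) (j β) Q * (c1 ^ 2 * d1 (j α) (j β) Q) =
        (c0 * c1) ^ 2 * (d0 (j α) (j β) Q * d1 (j α) (j β) Q) := by ring
    rw [e, map_mul, map_pow, pow_two]
    exact IsSquare.mul ⟨_, rfl⟩ k0

variable (hH : Hens w)

include hwv hs hH in
theorem oddRA (wa : ¬ IsSquare (v α)) (wa' : v α ≤ 1) (wb : v β = 1) (wab : v (α - β) = 1) :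
    (IsSquare (v a0) → SqEq (j (a0 * a1)) 1) ∧ (¬ IsSquare (v a0) → SqEq (j (a0 * a1)) (j (-β))) := by
  obtain ⟨W, Q, c0, c1, hL, n0, n1, e0, e1⟩ := hs
  have wab' : w (j α - j β) = v (α - β) := by rw [← map_sub, hwv]
  obtain ⟨k0, k1⟩ := locKA hH hL (by rwa [hwv]) (by rwa [hwv]) (by rwa [hwv]) (wab'.trans wab) Q
  have par : IsSquare (v a0) ↔ IsSquare (w (d0 (j α) (j β) Q)) := by
    rw [← hwv, e0]
    exact sq_mul_sq w ⟨w c0, by rw [map_pow, pow_two]⟩ (pow_ne_zero 2 n0)
  have e : SqEq (j (a0 * a1)) (d0 (j α) (j β) Q * d1 (j α) (j β) Q) :=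
    ⟨c0 * c1, mul_ne_zero n0 n1, by rw [map_mul, e0, e1]; ring⟩
  refine ⟨fun h => e.trans (k0 (par.1 h)), fun h => e.trans ?_⟩
  rw [map_neg]
  exact k1 fun h' => h (par.2 h')

include hwv hs hH in
theorem oddRB (wa : v α = 1) (wb : ¬ IsSquare (v β)) (wb' : v β ≤ 1) (wab : v (α - β) = 1) :
    (IsSquare (v a0) → SqEq (j a1) 1) ∧ (¬ IsSquare (v a0) → SqEq (j a1) (j (-α))) := by
  obtain ⟨W, Q, c0, c1, hL, n0, n1, e0, e1⟩ := hs
  have wab' : w (j α - j β) = v (α - β) := by rw [← map_sub, hwv]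
  obtain ⟨k0, k1⟩ := locKB hH hL (by rwa [hwv]) (by rwa [hwv]) (by rwa [hwv]) (wab'.trans wab) Q
  have par : IsSquare (v a0) ↔ IsSquare (w (d0 (j α) (j β) Q)) := by
    rw [← hwv, e0]
    exact sq_mul_sq w ⟨w c0, by rw [map_pow, pow_two]⟩ (pow_ne_zero 2 n0)
  have e : SqEq (j a1) (d1 (j α) (j β) Q) := ⟨c1, n1, e1⟩
  refine ⟨fun h => e.trans (k0 (par.1 h)), fun h => e.trans ?_⟩
  rw [map_neg]
  exact k1 fun h' => h (par.2 h')

include hwv hs hH in
theorem oddRC (wa : v α = 1) (wb : v β = 1) (wab : ¬ IsSquare (v (α - β)))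
    (wab' : v (α - β) ≤ 1) :
    (IsSquare (v a1) → SqEq (j a0) 1) ∧ (¬ IsSquare (v a1) → SqEq (j a0) (j α)) := by
  obtain ⟨W, Q, c0, c1, hL, n0, n1, e0, e1⟩ := hs
  have wab'' : w (j α - j β) = v (α - β) := by rw [← map_sub, hwv]
  obtain ⟨k0, k1⟩ := locKC hH hL (by rwa [hwv]) (by rwa [hwv]) (by rwa [wab'']) (by rwa [wab'']) Q
  have par : IsSquare (v a1) ↔ IsSquare (w (d1 (j α) (j β) Q)) := by
    rw [← hwv, e1]
    exact sq_mul_sq w ⟨w c1, by rw [map_pow, pow_two]⟩ (pow_ne_zero 2 n1)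
  have e : SqEq (j a0) (d0 (j α) (j β) Q) := ⟨c0, n0, e0⟩
  exact ⟨fun h => e.trans (k0 (par.1 h)), fun h => e.trans (k1 fun h' => h (par.2 h'))⟩

end par

theorem SqEq.isSquare {L : Type} [Field L] {x : L} (h : SqEq x 1) : IsSquare x := by
  obtain ⟨c, -, rfl⟩ := h
  exact ⟨c, by ring⟩

theorem locR_of {K L : Type} [Field K] [Field L] (i1 i2 : Algebra K L) {α β a0 a1 : K}
    (h2 : (2 : K) ≠ 0) (hα : α ≠ 0) (hβ : β ≠ 0) (hαβ : α ≠ β)
    (h : ∀ x, @algebraMap K L _ _ i1 x = @algebraMap K L _ _ i2 x)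
    (hs : @LocSol K K _ _ (crv α β) α β L _ i1 i2 a0 a1) :
    LocR (@algebraMap K L _ _ i2) α β a0 a1 := by
  obtain ⟨Q, c0, c1, n0, n1, e0, e1⟩ := hs
  refine ⟨_, Q, c0, c1, ?_, n0, n1, ?_, ?_⟩
  · rw [← h α, ← h β]
    exact @isE K _ α β L _ i1 h2 hα hβ hαβ
  · rw [← h α, ← h β]
    exact e0
  · rw [← h α, ← h β]
    exact e1

section core

variable {k K : Type} [Field k] [Field K] [Algebra k[X] K] [IsFractionRing k[X] K]
  (h2 : (2 : k) ≠ 0) {a b : k[X]} (ha : a ≠ 0) (hb : b ≠ 0) (hab : a ≠ b) (hco : IsCoprime a b)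

include h2 ha hb hab in
theorem locR_fin {a0 a1 : K} (hls : LSg (F := K) k
    (crv (algebraMap k[X] K a) (algebraMap k[X] K b)) (algebraMap k[X] K a) (algebraMap k[X] K b)
    a0 a1) (v : HeightOneSpectrum k[X]) :
    LocR (algebraMap K (Comp k[X] K v)) (algebraMap k[X] K a) (algebraMap k[X] K b) a0 a1 := by
  have h2K : (2 : K) ≠ 0 := tt h2
  have inj := IsFractionRing.injective k[X] K
  have haK : algebraMap k[X] K a ≠ 0 := by simpa using ha
  have hbK : algebraMap k[X] K b ≠ 0 := by simpa using hb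
  have habK : algebraMap k[X] K a ≠ algebraMap k[X] K b := fun h => hab (inj h)
  exact locR_of (compAlgebra' k[X] K v K) (compAlgebra k[X] K v) h2K haK hbK habK (fun x => rfl)
    (hls.1 v)

include h2 ha hb hab in
theorem locR_inf {a0 a1 : K} (hls : LSg (F := K) k
    (crv (algebraMap k[X] K a) (algebraMap k[X] K b)) (algebraMap k[X] K a) (algebraMap k[X] K b)
    a0 a1) :
    LocR (algebraMap K (CompInf k K)) (algebraMap k[X] K a) (algebraMap k[X] K b) a0 a1 := by
  have h2K : (2 : K) ≠ 0 := tt h2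
  have inj := IsFractionRing.injective k[X] K
  have haK : algebraMap k[X] K a ≠ 0 := by simpa using ha
  have hbK : algebraMap k[X] K b ≠ 0 := by simpa using hb
  have habK : algebraMap k[X] K a ≠ algebraMap k[X] K b := fun h => hab (inj h)
  exact locR_of (compInfAlgebra' k K K) (compInfAlgebra k K) h2K haK hbK habK (fun x => rfl)
    hls.2

include h2 ha hb hab hco in
/-- The pairs which are locally soluble. -/
theorem selK {a0 a1 : K} (n0 : a0 ≠ 0) (n1 : a1 ≠ 0) (hls : LSg (F := K) k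
    (crv (algebraMap k[X] K a) (algebraMap k[X] K b)) (algebraMap k[X] K a) (algebraMap k[X] K b)
    a0 a1) :
    ∃ (A B D : k[X]) (r s : k), (A, B, D) ∈ Triples a b ∧ SecondCond a b A B D r s ∧
      SqEq a0 (algebraMap k[X] K (C r * (A * B))) ∧ SqEq a1 (algebraMap k[X] K (C s * (A * D))) := by
  have inj := IsFractionRing.injective k[X] K
  have hsub : a - b ≠ 0 := sub_ne_zero.2 hab
  have hcoac : IsCoprime a (a - b) := by
    obtain ⟨x, y, h⟩ := hco
    exact ⟨x + y, -y, by linear_combination h⟩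
  have hcobc : IsCoprime b (a - b) := by
    obtain ⟨x, y, h⟩ := hco
    exact ⟨x + y, x, by linear_combination h⟩
  have cop : ∀ {p q π : k[X]}, IsCoprime p q → Irreducible π → π ∣ p → ¬ π ∣ q :=
    fun h hπ hp hq => hπ.not_isUnit (h.isUnit_of_dvd' hp hq)
  have hfin := locR_fin h2 ha hb hab hls
  have hinf := locR_inf h2 ha hb hab hls
  have vle : ∀ (v : HeightOneSpectrum k[X]) (p : k[X]),
      v.valuation K (algebraMap k[X] K p) ≤ 1 := fun v p => v.valuation_le_one p
  have vone : ∀ (v : HeightOneSpectrum k[X]) {p : k[X]}, p ∉ v.asIdeal →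
      v.valuation K (algebraMap k[X] K p) = 1 := fun v p h => (valK_one v).2 h
  have gfin := fun v : HeightOneSpectrum k[X] => parR (wv_coe (F := K) v) (hfin v) (M := 1)
    sq_one one_ne_zero (vle v a) (vle v b)
  obtain ⟨A, B, D, r, s, c0, c1, mA, mB, mD, sA, sB, sD, dA, dB, dD, hr, hs, hc0, hc1, e0, e1⟩ :=
    decK (a := a) (b := b) hco n0 n1
      (fun v h h' => (gfin v).1 (vone v h) (vone v h'))
      (fun v h h' => (gfin v).2.1 (vone v h) (by rw [← map_sub]; exact vone v h'))
      (fun v h h' => (gfin v).2.2 (vone v h) (by rw [← map_sub]; exact vone v h'))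
  have nA := mA.ne_zero
  have nB := mB.ne_zero
  have nD := mD.ne_zero
  have tr : (A, B, D) ∈ Triples a b := by
    refine ⟨mA, mB, mD, sA, sB, sD, dA, dB, dD, fun hN => ?_⟩
    show _ ∧ _ ∧ _
    set N := max a.natDegree b.natDegree with hNdef
    have vdeg : ∀ {p : k[X]}, p ≠ 0 → vInf k K (algebraMap k[X] K p) =
        WithZero.exp (p.natDegree : ℤ) := fun hp => vInf_poly hp
    have vle' : ∀ {p : k[X]}, p ≠ 0 → p.natDegree ≤ N →
        vInf k K (algebraMap k[X] K p) ≤ WithZero.exp (N : ℤ) := by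
      intro p hp h
      rw [vdeg hp, WithZero.exp_le_exp]
      exact_mod_cast h
    have ginf := parR (wi_coe (k' := k) (F := K)) hinf (M := WithZero.exp (N : ℤ))
      (isSquare_exp.2 (by exact_mod_cast hN)) WithZero.exp_ne_zero
      (vle' ha (le_max_left _ _)) (vle' hb (le_max_right _ _))
    have even_of : ∀ {p : k[X]} {q x : K} {u : k}, p ≠ 0 → u ≠ 0 → q ≠ 0 →
        x = q ^ 2 * algebraMap k[X] K (C u * p) → IsSquare (vInf k K x) → Even p.natDegree := by
      intro p q x u hp hu hq hx hs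
      rw [hx, sq_mul_sq _ ⟨vInf k K q, by rw [map_pow, pow_two]⟩ (pow_ne_zero 2 hq),
        vdeg (mul_ne_zero (C_ne_zero.2 hu) hp), natDegree_C_mul hu, isSquare_exp] at hs
      exact_mod_cast hs
    refine ⟨fun h => ?_, fun h h' => ?_, fun h h' => ?_⟩
    · refine even_of (mul_ne_zero nA nB) hr hc0 e0 (ginf.1 ?_ ?_)
      · rw [vdeg ha]
        congr 2
        rw [hNdef, h, max_self]
      · rw [vdeg hb]
        congr 2
        rw [hNdef, h, max_self]
    · refine even_of (mul_ne_zero nA nD) hs hc1 e1 (ginf.2.1 ?_ ?_)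
      · rw [vdeg ha, h]
      · rw [← map_sub, vdeg hsub, h']
    · have hAK : algebraMap k[X] K A ≠ 0 := by simpa using nA
      refine even_of (p := B * D) (u := r * s) (q := c0 * c1 * algebraMap k[X] K A)
        (x := a0 * a1) (mul_ne_zero nB nD) (mul_ne_zero hr hs)
        (mul_ne_zero (mul_ne_zero hc0 hc1) hAK) ?_ (ginf.2.2 ?_ ?_)
      · rw [e0, e1]
        simp only [map_mul, C_mul]
        ring
      · rw [vdeg hb, h]
      · rw [← map_sub, vdeg hsub, h']
  refine ⟨A, B, D, r, s, tr, ⟨hr, hs, fun π hπ => ?_, fun π hπ => ?_, fun π hπ => ?_,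
    fun hN => ?_⟩, ⟨c0, hc0, e0⟩, ⟨c1, hc1, e1⟩⟩
  · -- `π` divides `a`
    have hπi := hπ.1
    have hda : π ∣ a := by
      obtain ⟨_, m, hm, _⟩ := hπ
      exact (dvd_pow_self π (by omega)).trans hm
    have hv := fun p => mem_plK hπi (p := p)
    have nb : ¬ π ∣ b := cop hco hπi hda
    have nc : ¬ π ∣ a - b := cop hcoac hπi hda
    have nB' : ¬ π ∣ B := fun h => nb (h.trans dB)
    obtain ⟨k0, k1⟩ := oddRA (wv_coe (F := K) (plK hπi)) (hfin (plK hπi)) (hensK (plK hπi) h2)
      (not_sq_odd _ hv hπ) (vle _ _) (vone _ (by rwa [hv]))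
      (by rw [← map_sub]; exact vone _ (by rwa [hv]))
    have hA0 : algebraMap K (Comp k[X] K (plK hπi)) (algebraMap k[X] K A) ≠ 0 :=
      (_root_.map_ne_zero _).2 (by simpa using nA)
    have j0 : algebraMap K (Comp k[X] K (plK hπi)) c0 ≠ 0 := (_root_.map_ne_zero _).2 hc0
    have j1 : algebraMap K (Comp k[X] K (plK hπi)) c1 ≠ 0 := (_root_.map_ne_zero _).2 hc1
    have E : SqEq (algebraMap K (Comp k[X] K (plK hπi)) (a0 * a1))
        (algebraMap K (Comp k[X] K (plK hπi)) (algebraMap k[X] K (C (r * s) * (B * D)))) := by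
      refine ⟨algebraMap K (Comp k[X] K (plK hπi)) c0 * algebraMap K (Comp k[X] K (plK hπi)) c1 *
        algebraMap K (Comp k[X] K (plK hπi)) (algebraMap k[X] K A),
        mul_ne_zero (mul_ne_zero j0 j1) hA0, ?_⟩
      rw [e0, e1]
      simp only [map_mul, map_pow, C_mul]
      ring
    have par : IsSquare ((plK hπi).valuation K a0) ↔ ¬ π ∣ A := by
      rw [sq_iff_dec (plK hπi) (S := A * B) ?_ hr hc0 e0, hv]
      · constructor
        · exact fun h h' => h (h'.mul_right _)
        · intro h h'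
          rcases hπi.prime.dvd_or_dvd h' with h' | h'
          · exact h h'
          · exact nB' h'
      · have hAB : IsCoprime A B := (hco.of_isCoprime_of_dvd_left dA).of_isCoprime_of_dvd_right dB
        exact (squarefree_mul_iff.2 ⟨hAB.isRelPrime, sA, sB⟩)
    refine ⟨fun h => ?_, fun h => ?_⟩
    · refine sqmod_of_loc (F := K) (plK hπi) hπi hv ?_
      exact (E.symm.trans (k0 (par.2 h))).isSquare
    · refine sqmod_of_loc (F := K) (plK hπi) hπi hv ?_
      have h3 := E.symm.trans (k1 fun h' => (par.1 h') h)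
      have hb0 : algebraMap K (Comp k[X] K (plK hπi)) (algebraMap k[X] K b) ≠ 0 :=
        (_root_.map_ne_zero _).2 (by simpa using hb)
      have h4 := h3.mul (SqEq.refl (algebraMap K (Comp k[X] K (plK hπi)) (-algebraMap k[X] K b)))
      have e4 : algebraMap K (Comp k[X] K (plK hπi)) (algebraMap k[X] K (C (r * s) * (B * D))) *
          algebraMap K (Comp k[X] K (plK hπi)) (-algebraMap k[X] K b) =
          algebraMap K (Comp k[X] K (plK hπi))
            (algebraMap k[X] K (C (r * s) * (-b * B * D))) := by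
        simp only [map_mul, map_neg]
        ring
      rw [e4] at h4
      refine (h4.trans ?_).isSquare
      rw [map_neg, ← pow_two]
      exact SqEq.sq (neg_ne_zero.2 hb0)
  · -- `π` divides `b`
    have hπi := hπ.1
    have hdb : π ∣ b := by
      obtain ⟨_, m, hm, _⟩ := hπ
      exact (dvd_pow_self π (by omega)).trans hm
    have hv := fun p => mem_plK hπi (p := p)
    have na : ¬ π ∣ a := cop hco.symm hπi hdb
    have nc : ¬ π ∣ a - b := cop hcobc hπi hdb
    have nA' : ¬ π ∣ A := fun h => na (h.trans dA)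
    obtain ⟨k0, k1⟩ := oddRB (wv_coe (F := K) (plK hπi)) (hfin (plK hπi)) (hensK (plK hπi) h2)
      (vone _ (by rwa [hv])) (not_sq_odd _ hv hπ) (vle _ _)
      (by rw [← map_sub]; exact vone _ (by rwa [hv]))
    have j1 : algebraMap K (Comp k[X] K (plK hπi)) c1 ≠ 0 := (_root_.map_ne_zero _).2 hc1
    have E : SqEq (algebraMap K (Comp k[X] K (plK hπi)) a1)
        (algebraMap K (Comp k[X] K (plK hπi)) (algebraMap k[X] K (C s * (A * D)))) := by
      refine ⟨algebraMap K (Comp k[X] K (plK hπi)) c1, j1, ?_⟩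
      rw [e1]
      simp only [map_mul, map_pow]
    have par : IsSquare ((plK hπi).valuation K a0) ↔ ¬ π ∣ B := by
      rw [sq_iff_dec (plK hπi) (S := A * B) ?_ hr hc0 e0, hv]
      · constructor
        · exact fun h h' => h (h'.mul_left _)
        · intro h h'
          rcases hπi.prime.dvd_or_dvd h' with h' | h'
          · exact nA' h'
          · exact h h'
      · have hAB : IsCoprime A B := (hco.of_isCoprime_of_dvd_left dA).of_isCoprime_of_dvd_right dB
        exact (squarefree_mul_iff.2 ⟨hAB.isRelPrime, sA, sB⟩)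
    refine ⟨fun h => ?_, fun h => ?_⟩
    · refine sqmod_of_loc (F := K) (plK hπi) hπi hv ?_
      exact (E.symm.trans (k0 (par.2 h))).isSquare
    · refine sqmod_of_loc (F := K) (plK hπi) hπi hv ?_
      have h3 := E.symm.trans (k1 fun h' => (par.1 h') h)
      have ha0 : algebraMap K (Comp k[X] K (plK hπi)) (algebraMap k[X] K a) ≠ 0 :=
        (_root_.map_ne_zero _).2 (by simpa using ha)
      have h4 := h3.mul (SqEq.refl (algebraMap K (Comp k[X] K (plK hπi)) (-algebraMap k[X] K a)))
      have e4 : algebraMap K (Comp k[X] K (plK hπi)) (algebraMap k[X] K (C s * (A * D))) *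
          algebraMap K (Comp k[X] K (plK hπi)) (-algebraMap k[X] K a) =
          algebraMap K (Comp k[X] K (plK hπi)) (algebraMap k[X] K (C s * (-a * A * D))) := by
        simp only [map_mul, map_neg]
        ring
      rw [e4] at h4
      refine (h4.trans ?_).isSquare
      rw [map_neg, ← pow_two]
      exact SqEq.sq (neg_ne_zero.2 ha0)
  · -- `π` divides `a - b`
    have hπi := hπ.1
    have hdc : π ∣ a - b := by
      obtain ⟨_, m, hm, _⟩ := hπ
      exact (dvd_pow_self π (by omega)).trans hm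
    have hv := fun p => mem_plK hπi (p := p)
    have na : ¬ π ∣ a := cop hcoac.symm hπi hdc
    have nb : ¬ π ∣ b := cop hcobc.symm hπi hdc
    have nA' : ¬ π ∣ A := fun h => na (h.trans dA)
    obtain ⟨k0, k1⟩ := oddRC (wv_coe (F := K) (plK hπi)) (hfin (plK hπi)) (hensK (plK hπi) h2)
      (vone _ (by rwa [hv])) (vone _ (by rwa [hv]))
      (by rw [← map_sub]; exact not_sq_odd _ hv hπ) (by rw [← map_sub]; exact vle _ _)
    have j0 : algebraMap K (Comp k[X] K (plK hπi)) c0 ≠ 0 := (_root_.map_ne_zero _).2 hc0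
    have E : SqEq (algebraMap K (Comp k[X] K (plK hπi)) a0)
        (algebraMap K (Comp k[X] K (plK hπi)) (algebraMap k[X] K (C r * (A * B)))) := by
      refine ⟨algebraMap K (Comp k[X] K (plK hπi)) c0, j0, ?_⟩
      rw [e0]
      simp only [map_mul, map_pow]
    have par : IsSquare ((plK hπi).valuation K a1) ↔ ¬ π ∣ D := by
      rw [sq_iff_dec (plK hπi) (S := A * D) ?_ hs hc1 e1, hv]
      · constructor
        · exact fun h h' => h (h'.mul_left _)
        · intro h h'
          rcases hπi.prime.dvd_or_dvd h' with h' | h'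
          · exact nA' h'
          · exact h h'
      · have hAD : IsCoprime A D := (hcoac.of_isCoprime_of_dvd_left dA).of_isCoprime_of_dvd_right dD
        exact (squarefree_mul_iff.2 ⟨hAD.isRelPrime, sA, sD⟩)
    refine ⟨fun h => ?_, fun h => ?_⟩
    · refine sqmod_of_loc (F := K) (plK hπi) hπi hv ?_
      exact (E.symm.trans (k0 (par.2 h))).isSquare
    · refine sqmod_of_loc (F := K) (plK hπi) hπi hv ?_
      have h3 := E.symm.trans (k1 fun h' => (par.1 h') h)
      have ha0 : algebraMap K (Comp k[X] K (plK hπi)) (algebraMap k[X] K a) ≠ 0 :=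
        (_root_.map_ne_zero _).2 (by simpa using ha)
      have h4 := h3.mul (SqEq.refl (algebraMap K (Comp k[X] K (plK hπi)) (algebraMap k[X] K a)))
      have e4 : algebraMap K (Comp k[X] K (plK hπi)) (algebraMap k[X] K (C r * (A * B))) *
          algebraMap K (Comp k[X] K (plK hπi)) (algebraMap k[X] K a) =
          algebraMap K (Comp k[X] K (plK hπi)) (algebraMap k[X] K (C r * (a * A * B))) := by
        simp only [map_mul]
        ring
      rw [e4] at h4
      refine (h4.trans ?_).isSquare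
      rw [← pow_two]
      exact SqEq.sq ha0
  · -- infinity
    obtain ⟨W, Q, u0, u1, hL, m0, m1, f0, f1⟩ := hinf
    have hH : Hens (wi k K) := hensK (F := AtInf K) (pl (0 : k)) h2
    have hdeg : ∀ {p : k[X]}, p ≠ 0 → wi k K (algebraMap K (CompInf k K) (algebraMap k[X] K p)) =
        WithZero.exp (p.natDegree : ℤ) := by
      intro p hp
      rw [wi_coe, vInf_poly hp]
    have ns : ∀ {p : k[X]}, p ≠ 0 → Odd p.natDegree →
        ¬ IsSquare (wi k K (algebraMap K (CompInf k K) (algebraMap k[X] K p))) := by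
      intro p hp ho hs
      rw [hdeg hp, isSquare_exp] at hs
      have : Even p.natDegree := by exact_mod_cast hs
      exact (Nat.not_even_iff_odd.2 ho) this
    have hM : (¬ IsSquare (wi k K (algebraMap K (CompInf k K) (algebraMap k[X] K a))) ∧
        wi k K (algebraMap K (CompInf k K) (algebraMap k[X] K b)) =
          wi k K (algebraMap K (CompInf k K) (algebraMap k[X] K a))) ∨
        (¬ IsSquare (wi k K (algebraMap K (CompInf k K) (algebraMap k[X] K a))) ∧
        wi k K (algebraMap K (CompInf k K) (algebraMap k[X] K a) -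
          algebraMap K (CompInf k K) (algebraMap k[X] K b)) =
          wi k K (algebraMap K (CompInf k K) (algebraMap k[X] K a))) ∨
        (¬ IsSquare (wi k K (algebraMap K (CompInf k K) (algebraMap k[X] K b))) ∧
        wi k K (algebraMap K (CompInf k K) (algebraMap k[X] K a) -
          algebraMap K (CompInf k K) (algebraMap k[X] K b)) =
          wi k K (algebraMap K (CompInf k K) (algebraMap k[X] K b))) := by
      rw [← map_sub, ← map_sub]
      rcases lt_trichotomy a.natDegree b.natDegree with h | h | h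
      · rw [max_eq_right h.le] at hN
        refine Or.inr (Or.inr ⟨ns hb hN, ?_⟩)
        rw [hdeg hsub, hdeg hb, natDegree_sub_eq_right_of_natDegree_lt h]
      · rw [h, max_self] at hN
        refine Or.inl ⟨ns ha (h ▸ hN), ?_⟩
        rw [hdeg hb, hdeg ha, h]
      · rw [max_eq_left h.le] at hN
        refine Or.inr (Or.inl ⟨ns ha hN, ?_⟩)
        rw [hdeg hsub, hdeg ha, natDegree_sub_eq_left_of_natDegree_lt h]
    obtain ⟨p', q', htor, g0, g1⟩ := locInf hH hL hM Q
    obtain ⟨p, q, hpq, rfl, rfl⟩ : ∃ p q : k[X], TorPair a b p q ∧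
        p' = algebraMap K (CompInf k K) (algebraMap k[X] K p) ∧
        q' = algebraMap K (CompInf k K) (algebraMap k[X] K q) := by
      rcases htor with ⟨rfl, rfl⟩ | ⟨rfl, rfl⟩ | ⟨rfl, rfl⟩ | ⟨rfl, rfl⟩
      · exact ⟨1, 1, Or.inl ⟨rfl, rfl⟩, by simp only [map_one], by simp only [map_one]⟩
      · exact ⟨a * b, -a, Or.inr (Or.inl ⟨rfl, rfl⟩), by simp only [map_mul],
          by simp only [map_neg]⟩
      · exact ⟨a, a * (a - b), Or.inr (Or.inr (Or.inl ⟨rfl, rfl⟩)), rfl,
          by simp only [map_mul, map_sub]⟩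
      · exact ⟨b, b - a, Or.inr (Or.inr (Or.inr ⟨rfl, rfl⟩)), rfl, by simp only [map_sub]⟩
    obtain ⟨np, nq⟩ := torPair_ne ha hb hab hpq
    have lA : A.leadingCoeff = 1 := mA
    have lB : B.leadingCoeff = 1 := mB
    have lD : D.leadingCoeff = 1 := mD
    have fin : ∀ {P S : k[X]} {u : k} {x : K} {c : K} {z y : CompInf k K}, P ≠ 0 → S ≠ 0 →
        u ≠ 0 → c ≠ 0 → z ≠ 0 → x = c ^ 2 * algebraMap k[X] K (C u * S) →
        algebraMap K (CompInf k K) x = z ^ 2 * y →
        SqEq y (algebraMap K (CompInf k K) (algebraMap k[X] K P)) →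
        Even (P * S).natDegree ∧ IsSquare (u * (P * S).leadingCoeff) := by
      intro P S u x c z y hP hS hu hc hz hx hy hyP
      have hPS : C u * (P * S) ≠ 0 := mul_ne_zero (C_ne_zero.2 hu) (mul_ne_zero hP hS)
      have hcL : algebraMap K (CompInf k K) c ≠ 0 := (_root_.map_ne_zero _).2 hc
      have hPL : algebraMap K (CompInf k K) (algebraMap k[X] K P) ≠ 0 :=
        (_root_.map_ne_zero _).2 (by simpa using hP)
      have h1 : SqEq (algebraMap K (CompInf k K) (algebraMap k[X] K (C u * S)))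
          (algebraMap K (CompInf k K) (algebraMap k[X] K P)) := by
        refine SqEq.trans ?_ (SqEq.trans ⟨z, hz, hy⟩ hyP)
        refine SqEq.symm ⟨algebraMap K (CompInf k K) c, hcL, ?_⟩
        rw [hx, map_mul, map_pow]
      have h3 := h1.mul (SqEq.refl (algebraMap K (CompInf k K) (algebraMap k[X] K P)))
      have h4 : IsSquare (algebraMap K (CompInf k K) (algebraMap k[X] K (C u * (P * S)))) := by
        have e : algebraMap K (CompInf k K) (algebraMap k[X] K (C u * (P * S))) =
            algebraMap K (CompInf k K) (algebraMap k[X] K (C u * S)) *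
            algebraMap K (CompInf k K) (algebraMap k[X] K P) := by
          simp only [map_mul]
          ring
        rw [e]
        refine (h3.trans ?_).isSquare
        rw [← pow_two]
        exact SqEq.sq hPL
      obtain ⟨k0, k1⟩ := sq_inf (F := K) hPS h4
      rw [natDegree_C_mul hu] at k0
      rw [leadingCoeff_mul, leadingCoeff_C] at k1
      exact ⟨k0, k1⟩
    obtain ⟨k0, k1⟩ := fin np (mul_ne_zero nA nB) hr hc0 m0 e0 f0 g0
    obtain ⟨k2, k3⟩ := fin nq (mul_ne_zero nA nD) hs hc1 m1 e1 f1 g1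
    refine ⟨p, q, hpq, by rw [mul_assoc]; exact k0, by rw [mul_assoc]; exact k2, ?_, ?_⟩
    · rwa [leadingCoeff_mul, leadingCoeff_mul, lA, lB, mul_one, mul_one] at k1
    · rwa [leadingCoeff_mul, leadingCoeff_mul, lA, lD, mul_one, mul_one] at k3

end core

end Pool.Agent.TH115.GD
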